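import Mathlib
import Pool.Agent.H19P.QA

set_option autoImplicit false

/-!
# The Diophantine condition for `(s / t) (α - α') α ^ h`, `α` a quadratic unit of norm `-1`
-/

namespace Pool.Agent.V60.Gap

section

variable {α α' : ℝ} {P : ℤ}

lemma diff_int (hs : α + α' = P) (hm : α * α' = -1) (h : ℕ) :
    ∃ w : ℤ, (α - α') * (α ^ h - α' ^ h) = w := by
  induction h using Nat.twoStepInduction with
  | zero => exact ⟨0, by norm_num⟩
  | one =>
    refine ⟨P ^ 2 + 4, ?_⟩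
    rw [pow_one, pow_one]
    push_cast
    rw [← hs]
    linear_combination (-4) * hm
  | more n h1 h2 =>
    obtain ⟨v, hv⟩ := h1
    obtain ⟨w, hw⟩ := h2
    refine ⟨P * w + v, ?_⟩
    push_cast
    rw [← hs, ← hw, ← hv]
    have e1 : α ^ (n + 2) - α' ^ (n + 2) = (α + α') * (α ^ (n + 1) - α' ^ (n + 1)) -
      (α * α') * (α ^ n - α' ^ n) := by ring
    rw [e1, hm]
    ring

lemma trace_pos (hα : 1 < α) (hs : α + α' = P) (hm : α * α' = -1) : 1 ≤ P := by
  have h1 := (abs_lt.1 (Pool.Agent.H19P.conj_abs hα hm)).1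
  have h2 : (0 : ℝ) < P := by rw [← hs]; linarith
  have h3 : 0 < P := by exact_mod_cast h2
  omega

lemma not_square {P : ℤ} (hP : 1 ≤ P) (j : ℤ) : P ^ 2 + 4 ≠ j ^ 2 := by
  intro h
  have h1 : |P| < |j| := sq_lt_sq.1 (by omega)
  have h2 : |j| ^ 2 = j ^ 2 := sq_abs j
  rw [abs_of_pos (by omega)] at h1
  set i := |j| with hi
  rw [← h2] at h
  have h3 : P + 1 ≤ i := h1
  have h4 : P < 2 := by nlinarith
  have h5 : P = 1 := by omega
  rw [h5] at h h3
  have h6 : i < 3 := by nlinarith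
  have h7 : i = 2 := by omega
  rw [h7] at h
  norm_num at h

/-- **The Diophantine condition.** -/
theorem dio_ratio (hα : 1 < α) (hs : α + α' = P) (hm : α * α' = -1) {s t : ℕ} (hs1 : 1 ≤ s)
    (ht1 : 1 ≤ t) (h a b : ℕ) (ha : 1 ≤ a) (hb : 1 ≤ b) :
    1 ≤ |(a : ℝ) - b * ((s / t * (α - α')) * α ^ h)| * ((t * (t + s * (α - α'))) * (a + b)) := by
  have hc := Pool.Agent.H19P.conj_abs hα hm
  have hc' := abs_lt.1 hc
  have hP := trace_pos hα hs hm
  obtain ⟨v, hv⟩ := Pool.Agent.H19P.trace_int hs hm h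
  obtain ⟨w, hw⟩ := diff_int hs hm h
  set δ := α - α' with hδ
  have hδ0 : 0 < δ := by rw [hδ]; linarith
  have hδ2 : δ ^ 2 = ((P ^ 2 + 4 : ℤ) : ℝ) := by
    push_cast
    rw [← hs, hδ]
    linear_combination (-4) * hm
  set x := α ^ h with hx
  set y := α' ^ h with hy
  have hx1 : 1 ≤ x := one_le_pow₀ hα.le
  have hy1 : |y| ≤ 1 := by
    rw [hy, abs_pow]
    exact pow_le_one₀ (abs_nonneg _) hc.le
  have hxy0 : 0 < x + y ∨ h = 0 := by
    rcases Nat.eq_zero_or_pos h with h0 | h0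
    · exact Or.inr h0
    · left
      have h2 : 1 < x := one_lt_pow₀ hα (by omega)
      have := (abs_le.1 hy1).1
      linarith
  have hv0 : v ≠ 0 := by
    intro h0
    rw [h0, Int.cast_zero] at hv
    rcases hxy0 with h1 | h1
    · linarith
    · rw [hx, hy, h1] at hv
      norm_num at hv
  obtain ⟨e, he1, hxy⟩ : ∃ e : ℤ, (e = 1 ∨ e = -1) ∧ x * y = e := by
    refine ⟨(-1) ^ h, neg_one_pow_eq_or ℤ h, ?_⟩
    rw [hx, hy, ← mul_pow, hm]
    push_cast
    rfl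
  have ha0 : (1 : ℝ) ≤ a := by exact_mod_cast ha
  have hb0 : (1 : ℝ) ≤ b := by exact_mod_cast hb
  have hsr : (1 : ℝ) ≤ s := by exact_mod_cast hs1
  have htr : (1 : ℝ) ≤ t := by exact_mod_cast ht1
  set N : ℤ := ((t : ℤ) * a) ^ 2 - t * a * b * s * w - (b * s : ℤ) ^ 2 * (P ^ 2 + 4) * e with hN
  have hNr : (N : ℝ) = (t * a - b * s * δ * x) * (t * a + b * s * δ * y) := by
    have : (N : ℝ) = ((t : ℝ) * a) ^ 2 - t * a * b * s * w - (b * s : ℝ) ^ 2 *
        ((P ^ 2 + 4 : ℤ) : ℝ) * e := by rw [hN]; push_cast; ring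
    rw [this, ← hδ2, ← hxy, ← hw]
    ring
  have hN0 : N ≠ 0 := by
    intro h0
    rw [h0, Int.cast_zero] at hNr
    have key : ∃ k : ℤ, δ * ((v * (b * s) : ℤ) : ℝ) = k := by
      rcases mul_eq_zero.1 hNr.symm with h1 | h1
      · refine ⟨2 * (t * a) - b * s * w, ?_⟩
        push_cast
        rw [← hv, ← hw]
        linear_combination (-2) * h1
      · refine ⟨b * s * w - 2 * (t * a), ?_⟩
        push_cast
        rw [← hv, ← hw]
        linear_combination 2 * h1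
    obtain ⟨k, hk⟩ := key
    have h2 : (P ^ 2 + 4) * (v * (b * s)) ^ 2 = k ^ 2 := by
      have h3 : ((P ^ 2 + 4 : ℤ) : ℝ) * ((v * (b * s) : ℤ) : ℝ) ^ 2 = (k : ℝ) ^ 2 := by
        rw [← hδ2, ← mul_pow, hk]
      exact_mod_cast h3
    have hm0 : v * (b * s : ℤ) ≠ 0 := by
      refine mul_ne_zero hv0 (mul_ne_zero ?_ ?_)
      · exact_mod_cast (by omega : b ≠ 0)
      · exact_mod_cast (by omega : s ≠ 0)
    have h3 : (v * (b * s : ℤ)) ^ 2 ∣ k ^ 2 := ⟨P ^ 2 + 4, by rw [← h2]; ring⟩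
    have h4 : v * (b * s : ℤ) ∣ k := (Int.pow_dvd_pow_iff two_ne_zero).1 h3
    obtain ⟨j, hj⟩ := h4
    rw [hj] at h2
    have h5 : P ^ 2 + 4 = j ^ 2 := by
      have h6 : (v * (b * s : ℤ)) ^ 2 ≠ 0 := pow_ne_zero 2 hm0
      refine mul_right_cancel₀ h6 ?_
      rw [h2]
      ring
    exact not_square hP j h5
  have h1 : 1 ≤ |(t * a - b * s * δ * x : ℝ)| * |(t * a + b * s * δ * y : ℝ)| := by
    rw [← abs_mul, ← hNr, ← Int.cast_abs]
    exact_mod_cast Int.one_le_abs hN0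
  have h2 : |(t * a + b * s * δ * y : ℝ)| ≤ (t + s * δ) * (a + b) := by
    have h3 := abs_le.1 hy1
    have h4 : 0 ≤ b * s * δ := by positivity
    have h5 : b * s * δ * y ≤ b * s * δ := by nlinarith
    have h6 : -(b * s * δ) ≤ b * s * δ * y := by nlinarith
    have h7 : 0 ≤ (t : ℝ) * a := by positivity
    have h8 : 0 ≤ (t : ℝ) * b := by positivity
    have h9 : 0 ≤ s * δ * a := by positivity
    rw [abs_le]
    constructor <;> nlinarith
  have h3 : |(t * a - b * s * δ * x : ℝ)| = |(a : ℝ) - b * ((s / t * δ) * x)| * t := by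
    have ht0 : (t : ℝ) ≠ 0 := by positivity
    have e1 : (t * a - b * s * δ * x : ℝ) = ((a : ℝ) - b * ((s / t * δ) * x)) * t := by
      field_simp
    rw [e1, abs_mul, abs_of_pos (show (0 : ℝ) < t by positivity)]
  rw [h3] at h1
  calc (1 : ℝ) ≤ _ := h1
    _ ≤ |(a : ℝ) - b * ((s / t * δ) * x)| * t * ((t + s * δ) * (a + b)) :=
        mul_le_mul_of_nonneg_left h2 (by positivity)
    _ = _ := by ring

/-- the inverse ratio has the same form -/
lemma inv_ratio (hα : 1 < α) (hs : α + α' = P) (hm : α * α' = -1) {s t : ℕ} (hs1 : 1 ≤ s)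
    (ht1 : 1 ≤ t) : ∃ s' t' : ℕ, 1 ≤ s' ∧ 1 ≤ t' ∧
      ((s : ℝ) / t * (α - α'))⁻¹ = s' / t' * (α - α') := by
  have hP := trace_pos hα hs hm
  have hc' := abs_lt.1 (Pool.Agent.H19P.conj_abs hα hm)
  have hδ0 : 0 < α - α' := by linarith
  have hδ2 : (α - α') ^ 2 = (P : ℝ) ^ 2 + 4 := by
    rw [← hs]
    linear_combination (-4) * hm
  obtain ⟨n, hn⟩ := Int.eq_ofNat_of_zero_le (show 0 ≤ P by omega)
  refine ⟨t, s * (n ^ 2 + 4), ht1, Nat.mul_pos hs1 (by positivity), ?_⟩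
  have hn2 : (α - α') ^ 2 = (n : ℝ) ^ 2 + 4 := by
    rw [hδ2, hn]
    push_cast
    rfl
  have hs0 : (s : ℝ) ≠ 0 := by positivity
  have ht0 : (t : ℝ) ≠ 0 := by positivity
  push_cast
  rw [← hn2]
  field_simp

end

end Pool.Agent.V60.Gap
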