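import Mathlib

set_option autoImplicit false

/-!
# The lemma of Borel and Cantelli for a family of indicator functions
-/

namespace Pool.Agent.V60.Gap

open Finset Filter Topology MeasureTheory

lemma bc {α : Type*} [MeasurableSpace α] {μ : Measure α} [IsFiniteMeasure μ] {ι : Type*} [Countable ι] (D : Set ι)
    (F : ι → α → ℝ) (hm : ∀ i, Measurable (F i)) (h0 : ∀ i t, 0 ≤ F i t) (h1 : ∀ i t, F i t ≤ 1)
    (w : ι → ℝ) {K C : ℝ} (hK : 0 ≤ K) (hF : ∀ i ∈ D, ∫ t, F i t ∂μ ≤ K * w i)
    (hC : ∀ T : Finset ι, (∀ i ∈ T, i ∈ D) → ∑ i ∈ T, w i ≤ C) :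
    ∀ᵐ t ∂μ, {i | i ∈ D ∧ F i t = 1}.Finite := by
  classical
  have h2 : ∀ i : D, μ {t | F i t = 1} ≤ ENNReal.ofReal (K * w i) := by
    intro i
    have hms : MeasurableSet {t | F i t = 1} := hm i (measurableSet_singleton 1)
    rw [← lintegral_indicator_one hms]
    have h3 : ∫⁻ t, Set.indicator {t | F i t = 1} 1 t ∂μ ≤ ∫⁻ t, ENNReal.ofReal (F i t) ∂μ := by
      refine lintegral_mono fun t => ?_
      by_cases ht : F i t = 1
      · rw [Set.indicator_of_mem (show t ∈ {t | F i t = 1} from ht), ht]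
        simp
      · rw [Set.indicator_of_notMem (show t ∉ {t | F i t = 1} from ht)]
        exact zero_le
    refine h3.trans ?_
    rw [← ofReal_integral_eq_lintegral_ofReal]
    · exact ENNReal.ofReal_le_ofReal (hF i i.2)
    · refine Integrable.of_bound (C := 1) (hm i).aestronglyMeasurable (Eventually.of_forall fun t => ?_)
      rw [Real.norm_eq_abs, abs_of_nonneg (h0 i t)]
      exact h1 i t
    · exact Eventually.of_forall fun t => h0 i t
  have h4 : ∑' i : D, μ {t | F i t = 1} ≠ ⊤ := by
    refine ne_top_of_le_ne_top (ENNReal.ofReal_ne_top (r := K * C)) ?_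
    rw [ENNReal.tsum_eq_iSup_sum]
    refine iSup_le fun T => ?_
    calc ∑ i ∈ T, μ {t | F i t = 1} ≤ ∑ i ∈ T, ENNReal.ofReal (K * w i) :=
          Finset.sum_le_sum fun i _ => h2 i
      _ = ENNReal.ofReal (∑ i ∈ T, K * w i) :=
          (ENNReal.ofReal_sum_of_nonneg (f := fun i : D => K * w i) fun (i : D) _ =>
            (integral_nonneg (h0 i)).trans (hF i i.2)).symm
      _ ≤ ENNReal.ofReal (K * C) := by
          refine ENNReal.ofReal_le_ofReal ?_
          rw [← Finset.mul_sum]
          refine mul_le_mul_of_nonneg_left ?_ hK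
          have h5 := hC (T.image Subtype.val) (by
            intro i hi
            rw [mem_image] at hi
            obtain ⟨j, _, rfl⟩ := hi
            exact j.2)
          rw [Finset.sum_image (fun x _ y _ hxy => Subtype.ext hxy)] at h5
          exact h5
  filter_upwards [ae_finite_setOfPred_mem h4] with t ht
  refine (ht.image Subtype.val).subset ?_
  rintro i ⟨hi, h⟩
  exact ⟨⟨i, hi⟩, h, rfl⟩

end Pool.Agent.V60.Gap
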