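import Mathlib
import Pool.Agent.V60.Gap.Near

set_option autoImplicit false

/-!
# Near pairs of exponents with the second integer a multiple of the first one by a power of the base
-/

namespace Pool.Agent.V60.Gap

open Finset Filter Topology MeasureTheory
open Pool.Agent.W66X
open Pool.Agent.W66 (sum_Ap exp_small large_smooth_count NN_bounds)
open Pool.Agent.H447R2.ML (Sh sh_of)
open Pool.Agent.H305R2 (roughPart roughPart_prime SM SM_pos ZZ ZZ_nonneg ZZ_le_exp bounds
  ff NN measurable_ff measurable_NN ff_nonneg ff_le_one integrableOn_ff log_nat_tendsto integral_ind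
  integral_ind_le)

theorem near_diag {b : ℕ} (hb : 2 ≤ b) {κ C : ℝ} (hκ0 : 0 ≤ κ) (hκ : κ < b) {g : ℕ → ℝ}
    (hg : ∀ p, |g p| ≤ C * κ ^ p) (b0 : ℝ) : ∃ K : ℝ, 0 < K ∧ ∃ P : ℕ, ∀ p ≥ P, ∀ q : ℕ, p < q →
    q ≤ 2 * p → ∫ t in Set.Ioc b0 (b0 + 1), ff p (ysh b g p t) * (1 - nw b g p q t) ≤
      K * (((b : ℝ) ^ (q - p))⁻¹ * (Real.log p / p)) := by
  classical
  have hbr : (2 : ℝ) ≤ b := by exact_mod_cast hb
  have hb0r : (0 : ℝ) < b := by linarith
  set L := Real.log b with hL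
  have hLpos : 0 < L := Real.log_pos (by linarith)
  obtain ⟨K1, hK1, hA⟩ := sum_Ap2 (c := L / 2) (by positivity)
  have hpert := pert8 hb0r hκ0 hκ hg (b0 - 1) 64
  have hsh := sh_of hb0r hκ0 hκ hg b0 (b0 + 1)
  have hlarge : ∀ᶠ p : ℕ in atTop, (|b0| + 32) * 2 / L < p :=
    tendsto_natCast_atTop_atTop.eventually_gt_atTop _
  obtain ⟨P, hP⟩ := eventually_atTop.1 (hA.and (hlarge.and ((eventually_ge_atTop 3).and (hpert.and hsh))))
  refine ⟨2 * K1, by positivity, P, fun p hp q hpq hq2 => ?_⟩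
  obtain ⟨hAp, hpl, hp3, hpertp, hshp⟩ := hP p hp
  obtain ⟨_, _, _, _, hshq⟩ := hP q (by omega)
  obtain ⟨h, rfl⟩ : ∃ h, q = p + h := ⟨q - p, by omega⟩
  have e2h : p + h - p = h := by omega
  have hp3' : (3 : ℝ) ≤ p := by exact_mod_cast hp3
  have hp0 : (0 : ℝ) < p := by linarith
  have hb0abs := neg_abs_le b0
  have hb0abs' := le_abs_self b0
  rw [div_lt_iff₀ hLpos] at hpl
  -- the basic scale
  set Y := L * p + b0 - 1 / 2 with hY
  have hYlo : L / 2 * p ≤ Y := by rw [hY]; linarith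
  have hY16 : 16 ≤ Y := by rw [hY]; linarith
  set E := Real.exp Y with hE
  have hEpos : 0 < E := Real.exp_pos Y
  have hE17 : 17 ≤ E := by have := Real.add_one_le_exp Y; linarith
  set B := b ^ h with hB
  have hB0 : 0 < B := by positivity
  have hBr : ((B : ℕ) : ℝ) = (b : ℝ) ^ h := by rw [hB]; push_cast; rfl
  have hBr0 : (0 : ℝ) < (B : ℝ) := by exact_mod_cast hB0
  set N0 := ⌊Real.exp Y⌋₊ with hN0
  set N1 := ⌊Real.exp (Y + 2)⌋₊ with hN1
  have hN0le : (N0 : ℝ) ≤ E := Nat.floor_le hEpos.le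
  have hN0gt : E < N0 + 1 := Nat.lt_floor_add_one _
  obtain ⟨hee1, hee2, hhalf1, hhalf2, he3⟩ := exp_consts
  have hhalf0 : 0 < Real.exp (1 / 2) := Real.exp_pos _
  have hEe2 : Real.exp (Y + 2) = E * (Real.exp 1 * Real.exp 1) := by
    rw [hE, ← Real.exp_add, ← Real.exp_add]; ring_nf
  have hEe7 : E * 7 ≤ E * (Real.exp 1 * Real.exp 1) := mul_le_mul_of_nonneg_left hee1 hEpos.le
  have hN0r : E - 1 ≤ N0 := by linarith
  have hN02 : 2 ≤ N0 := by
    have : (2 : ℝ) < ((N0 + 1 : ℕ) : ℝ) := by push_cast; linarith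
    have : 2 < N0 + 1 := by exact_mod_cast this
    omega
  have hbp : ∀ t : ℝ, Real.exp t * (b : ℝ) ^ p = Real.exp (L * p + t) := by
    intro t
    rw [Real.exp_add, hL, mul_comm (Real.log b), Real.exp_nat_mul, Real.exp_log hb0r, mul_comm]
  have hgp : |g p| ≤ E / 64 := by
    push_cast at hpertp
    have h1 : Real.exp (L * p + (b0 - 1)) ≤ E := by
      rw [hE, hY]; exact Real.exp_le_exp.2 (by linarith)
    linarith
  have hpert8p : ((8 : ℕ) : ℝ) * |g p| ≤ Real.exp (Real.log b * p + (b0 - 1)) := by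
    push_cast at hpertp ⊢
    have := abs_nonneg (g p)
    linarith
  set Ps := (Icc N0 N1).filter (fun N => (roughPart p N).Prime) with hPs
  set F := Ps.image (fun N => B * N) with hF
  have hPs1 : ∀ N ∈ Ps, 0 < N := by
    intro N hN
    rw [hPs, mem_filter, mem_Icc] at hN
    omega
  have hF1 : ∀ m ∈ F, 1 ≤ m := by
    intro m hm
    rw [hF, mem_image] at hm
    obtain ⟨x, hx, rfl⟩ := hm
    exact Nat.mul_pos hB0 (hPs1 x hx)
  have hpt : ∀ t ∈ Set.Ioc b0 (b0 + 1), ff p (ysh b g p t) * (1 - nw b g p (p + h) t) ≤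
      if NN (ysh b g (p + h) t) ∈ F then (1 : ℝ) else 0 := by
    intro t ht
    by_cases h3 : NN (ysh b g (p + h) t) = b ^ (p + h - p) * NN (ysh b g p t)
    · have h4 : nw b g p (p + h) t = 0 := by
        unfold nw
        rw [if_pos h3]
      rw [h4, sub_zero, mul_one]
      rw [e2h, ← hB] at h3
      unfold ff
      by_cases h1 : (roughPart p (NN (ysh b g p t))).Prime
      · rw [if_pos h1]
        have hmem : NN (ysh b g (p + h) t) ∈ F := by
          obtain ⟨hx1, hx2, _⟩ := exp_ysh hb0r hpert8p (t := t) (by linarith [ht.1])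
          have hn1 := NN_bounds (ysh b g p t)
          rw [hx1] at hn1
          rw [hF, mem_image]
          refine ⟨NN (ysh b g p t), ?_, h3.symm⟩
          rw [hPs, mem_filter, mem_Icc]
          have hXlo : Real.exp (1 / 2) * E < Real.exp t * (b : ℝ) ^ p := by
            rw [hbp, hE, hY, ← Real.exp_add]
            exact Real.exp_lt_exp.2 (by linarith [ht.1])
          have hXhi : Real.exp t * (b : ℝ) ^ p ≤ (Real.exp 1 * Real.exp (1 / 2)) * E := by
            rw [hbp, hE, hY, ← Real.exp_add, ← Real.exp_add]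
            exact Real.exp_le_exp.2 (by linarith [ht.2])
          have hgp' := abs_le.1 hgp
          refine ⟨⟨?_, ?_⟩, h1⟩
          · have h3 : (N0 : ℝ) ≤ NN (ysh b g p t) := by
              have h4 : 8 / 5 * E ≤ Real.exp (1 / 2) * E := mul_le_mul_of_nonneg_right hhalf1 hEpos.le
              linarith [hn1.2]
            exact_mod_cast h3
          · rw [hN1, Nat.le_floor_iff (Real.exp_pos _).le]
            refine hn1.1.le.trans ?_
            rw [hEe2]
            have h4 : (Real.exp 1 * Real.exp (1 / 2)) * E ≤ (3 * (17 / 10)) * E := by gcongr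
            linarith
        rw [if_pos hmem]
      · rw [if_neg h1]; split_ifs <;> norm_num
    · have h4 : nw b g p (p + h) t = 1 := by
        unfold nw
        rw [if_neg h3]
      rw [h4, sub_self, mul_zero]
      split_ifs <;> norm_num
  have hmeasF : Measurable (fun u : ℝ => if NN u ∈ F then (1 : ℝ) else 0) :=
    (measurable_from_nat (f := fun n : ℕ => if n ∈ F then (1 : ℝ) else 0)).comp measurable_NN
  have hmy : ∀ m : ℕ, Measurable (fun t => ff m (ysh b g m t)) := fun m =>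
    (measurable_ff m).comp (measurable_ysh _ _ _)
  have hint1 : IntegrableOn (fun t : ℝ => ff p (ysh b g p t) * (1 - nw b g p (p + h) t))
      (Set.Ioc b0 (b0 + 1)) := by
    refine Measure.integrableOn_of_bounded (M := 1) (by simp)
      ((hmy p).mul ((measurable_nw b g p (p + h)).const_sub 1)).aestronglyMeasurable ?_
    refine Eventually.of_forall fun t => ?_
    have h1 := ff_nonneg p (ysh b g p t)
    have h3 := ff_le_one p (ysh b g p t)
    have h5 := nw01 b g p (p + h) t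
    rw [Real.norm_eq_abs, abs_of_nonneg (mul_nonneg h1 (by linarith [h5.2]))]
    exact mul_le_one₀ h3 (by linarith [h5.2]) (by linarith [h5.1])
  have hint2 : IntegrableOn (fun t : ℝ => if NN (ysh b g (p + h) t) ∈ F then (1 : ℝ) else 0)
      (Set.Ioc b0 (b0 + 1)) := by
    refine Measure.integrableOn_of_bounded (M := 1) (by simp)
      (hmeasF.comp (measurable_ysh _ _ _)).aestronglyMeasurable ?_
    refine Eventually.of_forall fun t => ?_
    split_ifs <;> simp
  have hstep1 : ∫ t in Set.Ioc b0 (b0 + 1), ff p (ysh b g p t) * (1 - nw b g p (p + h) t) ≤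
      2 * ∑ x ∈ Ps, 1 / ((B * x : ℕ) : ℝ) := by
    have h1 : ∫ t in Set.Ioc b0 (b0 + 1), ff p (ysh b g p t) * (1 - nw b g p (p + h) t) ≤
        ∫ t in Set.Ioc b0 (b0 + 1), (if NN (ysh b g (p + h) t) ∈ F then (1 : ℝ) else 0) :=
      setIntegral_mono_on hint1 hint2 measurableSet_Ioc hpt
    have h2 := (Sh.cov hshq (by omega) (s := b0) (t := b0 + 1) le_rfl (by linarith) le_rfl
      (F := fun u => if NN u ∈ F then (1 : ℝ) else 0) hmeasF (fun x => by split_ifs <;> norm_num)
      (fun x => by split_ifs <;> norm_num)).1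
    have h3 : ∫ u in Set.Ioc (ysh b g (p + h) b0) (ysh b g (p + h) (b0 + 1)),
        (if NN u ∈ F then (1 : ℝ) else 0) ≤ ∑ x ∈ Ps, 1 / ((B * x : ℕ) : ℝ) := by
      calc _ = _ := integral_ind F hF1 _ _
        _ ≤ ∑ m ∈ F, 1 / (m : ℝ) := Finset.sum_le_sum fun m hm => integral_ind_le (hF1 m hm) _ _
        _ = _ := by
            rw [hF, Finset.sum_image]
            intro x _ y _ hxy
            exact Nat.eq_of_mul_eq_mul_left hB0 hxy
    have h4 : 1 / (((p + h : ℕ) : ℝ)) ≤ 1 / 2 := by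
      apply one_div_le_one_div_of_le (by norm_num)
      push_cast
      have : (0 : ℝ) ≤ h := Nat.cast_nonneg _
      linarith
    have h5 : 0 ≤ ∫ t in Set.Ioc b0 (b0 + 1), (if NN (ysh b g (p + h) t) ∈ F then (1 : ℝ) else 0) :=
      integral_nonneg fun t => by simp only [Pi.zero_apply]; split_ifs <;> norm_num
    have h6 : (1 - 1 / (((p + h : ℕ) : ℝ))) *
        ∫ t in Set.Ioc b0 (b0 + 1), (if NN (ysh b g (p + h) t) ∈ F then (1 : ℝ) else 0) ≤
        ∑ x ∈ Ps, 1 / ((B * x : ℕ) : ℝ) := le_trans h2 h3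
    have h7 := mul_le_mul_of_nonneg_right (show 1 / 2 ≤ 1 - 1 / (((p + h : ℕ) : ℝ)) by linarith) h5
    linarith
  refine hstep1.trans ?_
  rw [e2h, ← hBr]
  have h8 : ∑ x ∈ Ps, 1 / ((B * x : ℕ) : ℝ) = (B : ℝ)⁻¹ * ∑ x ∈ Ps, 1 / (x : ℝ) := by
    rw [Finset.mul_sum]
    refine Finset.sum_congr rfl fun x _ => ?_
    push_cast
    rw [one_div, mul_inv, one_div]
  rw [h8]
  have h9 := hAp Y hYlo
  have h10 := mul_le_mul_of_nonneg_left h9 (show 0 ≤ (B : ℝ)⁻¹ by positivity)
  have h11 : 2 * ((B : ℝ)⁻¹ * ∑ x ∈ Ps, 1 / (x : ℝ)) ≤ 2 * ((B : ℝ)⁻¹ * (K1 * (Real.log p / p))) :=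
    mul_le_mul_of_nonneg_left h10 (by norm_num)
  refine h11.trans (le_of_eq ?_)
  ring

end Pool.Agent.V60.Gap
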