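import Mathlib
import Pool.Agent.Helper601.BT

set_option autoImplicit false

/-!
# Two convergent sums over the primes
-/

namespace Pool.Agent.V60.Gap

open Finset Filter Topology

/-- the sum of `1 / (p (log p) ^ ε)` over the primes is bounded -/
lemma inv_log_rpow {ε : ℝ} (hε : 0 < ε) : ∃ C : ℝ, 0 < C ∧ ∀ T : Finset ℕ, (∀ q ∈ T, q.Prime) →
    ∑ q ∈ T, 1 / ((q : ℝ) * Real.log q ^ ε) ≤ C := by
  classical
  obtain ⟨C0, hC0, hBT⟩ := Pool.Agent.Helper601.brun_titchmarsh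
  have hl2 : 0 < Real.log 2 := Real.log_pos (by norm_num)
  have hsum : Summable (fun k : ℕ => 1 / (k : ℝ) ^ (1 + ε)) :=
    Real.summable_one_div_nat_rpow.2 (by linarith)
  set A : ℝ := 2 * C0 / (Real.log 2 * Real.log 2 ^ ε) with hA
  have hApos : 0 < A := by positivity
  refine ⟨A * (∑' k : ℕ, 1 / (k : ℝ) ^ (1 + ε)) + 1, ?_, fun T hT => ?_⟩
  · have : 0 ≤ ∑' k : ℕ, 1 / (k : ℝ) ^ (1 + ε) := tsum_nonneg fun k => by positivity
    positivity
  set M := T.sup id + 1 with hM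
  have hmap : ∀ q ∈ T, Nat.log 2 q ∈ Ico 1 (M + 1) := by
    intro q hq
    rw [mem_Ico]
    have h2 : 2 ≤ q := (hT q hq).two_le
    have h3 : q ≤ T.sup id := Finset.le_sup (f := id) hq
    refine ⟨Nat.log_pos (by norm_num) h2, ?_⟩
    have := Nat.log_le_self 2 q
    omega
  rw [← Finset.sum_fiberwise_of_maps_to hmap]
  have hk : ∀ k ∈ Ico 1 (M + 1), ∑ q ∈ T.filter (fun q => Nat.log 2 q = k), 1 / ((q : ℝ) * Real.log q ^ ε) ≤
      A * (1 / (k : ℝ) ^ (1 + ε)) := by
    intro k hk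
    rw [mem_Ico] at hk
    have hk0 : (1 : ℝ) ≤ k := by exact_mod_cast hk.1
    set D := T.filter (fun q => Nat.log 2 q = k) with hD
    have hDm : ∀ q ∈ D, q.Prime ∧ 2 ^ k ≤ q ∧ q < 2 ^ (k + 1) := by
      intro q hq
      rw [hD, mem_filter] at hq
      have hp := hT q hq.1
      refine ⟨hp, ?_, ?_⟩
      · rw [← hq.2]; exact Nat.pow_log_le_self 2 hp.ne_zero
      · rw [← hq.2]; exact Nat.lt_pow_succ_log_self (by norm_num) q
    have hcard : (D.card : ℝ) ≤ C0 * ((2 ^ (k + 1) : ℕ) : ℝ) / Real.log ((2 ^ (k + 1) : ℕ) : ℝ) := by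
      refine le_trans ?_ (hBT 0 1 (2 ^ (k + 1)) (by
        calc 2 = 2 ^ 1 := by norm_num
          _ ≤ 2 ^ (k + 1) := Nat.pow_le_pow_right (by norm_num) (by omega)) (Or.inl rfl))
      have hsub : D ⊆ (Finset.range (2 ^ (k + 1))).filter (fun k => (0 + k * 1).Prime) := by
        intro p hp
        rw [mem_filter, mem_range]
        refine ⟨(hDm p hp).2.2, ?_⟩
        rw [zero_add, mul_one]
        exact (hDm p hp).1
      exact_mod_cast Finset.card_le_card hsub
    have hterm : ∀ q ∈ D, 1 / ((q : ℝ) * Real.log q ^ ε) ≤ 1 / ((2 : ℝ) ^ k * (k * Real.log 2) ^ ε) := by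
      intro q hq
      have h1 : ((2 ^ k : ℕ) : ℝ) ≤ q := by exact_mod_cast (hDm q hq).2.1
      push_cast at h1
      have h2 : (k : ℝ) * Real.log 2 ≤ Real.log q := by
        rw [← Real.log_pow]
        exact Real.log_le_log (by positivity) h1
      refine one_div_le_one_div_of_le (by positivity) ?_
      exact mul_le_mul h1 (Real.rpow_le_rpow (by positivity) h2 hε.le) (by positivity) (by positivity)
    calc ∑ q ∈ D, 1 / ((q : ℝ) * Real.log q ^ ε) ≤ ∑ q ∈ D, 1 / ((2 : ℝ) ^ k * (k * Real.log 2) ^ ε) :=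
          Finset.sum_le_sum hterm
      _ = D.card * (1 / ((2 : ℝ) ^ k * (k * Real.log 2) ^ ε)) := by
          rw [Finset.sum_const, nsmul_eq_mul]
      _ ≤ (C0 * ((2 ^ (k + 1) : ℕ) : ℝ) / Real.log ((2 ^ (k + 1) : ℕ) : ℝ)) *
          (1 / ((2 : ℝ) ^ k * (k * Real.log 2) ^ ε)) := by
          exact mul_le_mul_of_nonneg_right hcard (by positivity)
      _ ≤ A * (1 / (k : ℝ) ^ (1 + ε)) := by
          push_cast
          rw [Real.log_pow, Real.mul_rpow (by positivity) hl2.le, Real.rpow_add (by positivity), Real.rpow_one,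
            hA, pow_succ]
          push_cast
          have hke : 0 < (k : ℝ) ^ ε := by positivity
          have h2e : 0 < Real.log 2 ^ ε := by positivity
          have e1 : C0 * ((2 : ℝ) ^ k * 2) / (((k : ℝ) + 1) * Real.log 2) *
              (1 / ((2 : ℝ) ^ k * ((k : ℝ) ^ ε * Real.log 2 ^ ε))) =
              2 * C0 / (Real.log 2 * Real.log 2 ^ ε) * (1 / (((k : ℝ) + 1) * (k : ℝ) ^ ε)) := by
            field_simp
          rw [e1]
          refine mul_le_mul_of_nonneg_left ?_ (by positivity)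
          refine one_div_le_one_div_of_le (by positivity) ?_
          refine mul_le_mul_of_nonneg_right (by linarith) hke.le
  refine (Finset.sum_le_sum hk).trans ?_
  rw [← Finset.mul_sum]
  have h1 : ∑ k ∈ Ico 1 (M + 1), 1 / (k : ℝ) ^ (1 + ε) ≤ ∑' k : ℕ, 1 / (k : ℝ) ^ (1 + ε) :=
    hsum.sum_le_tsum _ fun k _ => by positivity
  have h2 := mul_le_mul_of_nonneg_left h1 hApos.le
  linarith

/-- `q - p < p / (log p) ^ (1 + ε)` -/
def Close (ε : ℝ) (p q : ℕ) : Prop := (q : ℝ) - p < p / Real.log p ^ (1 + ε)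

lemma ev_log {c : ℝ} : ∀ᶠ p : ℕ in atTop, c ≤ Real.log p :=
  (Real.tendsto_log_atTop.comp tendsto_natCast_atTop_atTop).eventually_ge_atTop c

lemma ev_pow (s : ℝ) : ∀ᶠ p : ℕ in atTop, Real.log p ^ s * 2 ≤ (p : ℝ) ^ (1 / 2 : ℝ) := by
  have h1 : (fun x : ℝ => Real.log x ^ s) =o[atTop] (fun x : ℝ => x ^ (1 / 2 : ℝ)) :=
    isLittleO_log_rpow_rpow_atTop s (by norm_num)
  have h2 := (h1.bound (show (0 : ℝ) < 1 / 2 by norm_num))
  have h3 := (tendsto_natCast_atTop_atTop (R := ℝ)).eventually h2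
  filter_upwards [h3, ev_log (c := 0), eventually_ge_atTop 1] with p hp hl h1p
  rw [Real.norm_eq_abs, Real.norm_eq_abs, abs_of_nonneg (Real.rpow_nonneg hl s),
    abs_of_nonneg (Real.rpow_nonneg (Nat.cast_nonneg p) _)] at hp
  linarith

/-- the number of primes `q` close to `p` -/
lemma close_card {ε : ℝ} (hε : 0 < ε) : ∃ C : ℝ, 0 < C ∧ ∀ᶠ p : ℕ in atTop, ∀ Q : Finset ℕ,
    (∀ q ∈ Q, q.Prime ∧ p < q ∧ Close ε p q) → (Q.card : ℝ) ≤ C * (p / Real.log p ^ (2 + ε)) := by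
  obtain ⟨C0, hC0, hBT⟩ := Pool.Agent.Helper601.brun_titchmarsh
  refine ⟨4 * C0, by positivity, ?_⟩
  filter_upwards [ev_log (c := 1), ev_pow (1 + ε), eventually_ge_atTop 4] with p hl hp hp4 Q hQ
  have hp4' : (4 : ℝ) ≤ p := by exact_mod_cast hp4
  have hp0 : (0 : ℝ) < p := by linarith
  have hl0 : 0 < Real.log p := by linarith
  set L := Real.log p with hL
  have hLe : 0 < L ^ (1 + ε) := by positivity
  set h := (p : ℝ) / L ^ (1 + ε) with hh
  have hsq : (p : ℝ) ^ (1 / 2 : ℝ) * (p : ℝ) ^ (1 / 2 : ℝ) = p := by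
    rw [← Real.rpow_add hp0]; norm_num
  have hs0 : 0 < (p : ℝ) ^ (1 / 2 : ℝ) := by positivity
  have hh1 : 2 * (p : ℝ) ^ (1 / 2 : ℝ) ≤ h := by
    rw [hh, le_div_iff₀ hLe]
    nlinarith
  have hs2 : 1 ≤ (p : ℝ) ^ (1 / 2 : ℝ) := Real.one_le_rpow (by linarith) (by norm_num)
  have hh2 : 2 ≤ h := by linarith
  set N := ⌈h⌉₊ with hN
  have hN1 : h ≤ N := Nat.le_ceil h
  have hN2 : (N : ℝ) < h + 1 := Nat.ceil_lt_add_one (by linarith)
  have hN3 : 2 ≤ N := by exact_mod_cast (show (2 : ℝ) ≤ N by linarith)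
  have hcard : (Q.card : ℝ) ≤ C0 * N / Real.log N := by
    refine le_trans ?_ (hBT p 1 N hN3 (Or.inl rfl))
    have hsub : Q ⊆ ((Finset.range N).filter (fun k => (p + k * 1).Prime)).image (fun k => p + k) := by
      intro q hq
      obtain ⟨h1, h2, h3⟩ := hQ q hq
      rw [mem_image]
      refine ⟨q - p, ?_, by omega⟩
      rw [mem_filter, mem_range]
      constructor
      · have h4 : ((q - p : ℕ) : ℝ) < N := by
          rw [Nat.cast_sub h2.le]
          exact lt_of_lt_of_le h3 hN1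
        exact_mod_cast h4
      · rw [mul_one, show p + (q - p) = q by omega]
        exact h1
    exact_mod_cast (Finset.card_le_card hsub).trans Finset.card_image_le
  have hlN : L / 2 ≤ Real.log N := by
    have h1 : Real.log ((p : ℝ) ^ (1 / 2 : ℝ)) = L / 2 := by
      rw [Real.log_rpow hp0]; ring
    rw [← h1]
    exact Real.log_le_log hs0 (by linarith)
  calc (Q.card : ℝ) ≤ C0 * N / Real.log N := hcard
    _ ≤ C0 * (2 * h) / (L / 2) := by
        refine div_le_div₀ (by positivity) ?_ (by positivity) hlN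
        exact mul_le_mul_of_nonneg_left (by linarith) (by linarith)
    _ = 4 * C0 * (p / L ^ (2 + ε)) := by
        have e1 : L ^ (2 + ε) = L * L ^ (1 + ε) := by
          rw [show (2 : ℝ) + ε = 1 + (1 + ε) by ring, Real.rpow_add hl0 1 (1 + ε), Real.rpow_one]
        rw [hh, e1]
        generalize L ^ (1 + ε) = M at hLe
        field_simp
        norm_num

/-- **First sum.** -/
theorem sum_close {ε : ℝ} (hε : 0 < ε) : ∃ C : ℝ, 0 < C ∧ ∃ P : ℕ, ∀ T : Finset (ℕ × ℕ),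
    (∀ z ∈ T, P ≤ z.1 ∧ z.1.Prime ∧ z.2.Prime ∧ z.1 < z.2 ∧ Close ε z.1 z.2) →
    ∑ z ∈ T, (Real.log z.1 / z.1) ^ 2 ≤ C := by
  classical
  obtain ⟨C1, hC1, h1⟩ := inv_log_rpow hε
  obtain ⟨C2, hC2, h2⟩ := close_card hε
  obtain ⟨P, hP⟩ := eventually_atTop.1 (h2.and (ev_log (c := 1)))
  refine ⟨C2 * C1, by positivity, P + 2, fun T hT => ?_⟩
  have hmap : ∀ z ∈ T, z.1 ∈ T.image Prod.fst := fun z hz => mem_image_of_mem _ hz
  rw [← Finset.sum_fiberwise_of_maps_to hmap]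
  have hk : ∀ p ∈ T.image Prod.fst, ∑ z ∈ T.filter (fun z => z.1 = p), (Real.log z.1 / z.1) ^ 2 ≤
      C2 * (1 / ((p : ℝ) * Real.log p ^ ε)) := by
    intro p hp
    rw [mem_image] at hp
    obtain ⟨z0, hz0, hz0p⟩ := hp
    have hz0' := hT z0 hz0
    rw [hz0p] at hz0'
    have hpP := hP p (by omega)
    have hp0 : (0 : ℝ) < p := by
      have := hz0'.2.1.pos
      exact_mod_cast this
    have hl0 : 0 < Real.log p := by linarith [hpP.2]
    have h3 : ∑ z ∈ T.filter (fun z => z.1 = p), (Real.log z.1 / z.1) ^ 2 =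
        (T.filter (fun z => z.1 = p)).card * (Real.log p / p) ^ 2 := by
      rw [← nsmul_eq_mul, ← Finset.sum_const]
      refine Finset.sum_congr rfl fun z hz => ?_
      rw [(mem_filter.1 hz).2]
    have h4 : ((T.filter (fun z => z.1 = p)).card : ℝ) ≤ C2 * (p / Real.log p ^ (2 + ε)) := by
      have h5 : ((T.filter (fun z => z.1 = p)).image Prod.snd).card = (T.filter (fun z => z.1 = p)).card := by
        refine Finset.card_image_of_injOn ?_
        intro x hx y hy hxy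
        rw [Finset.mem_coe, mem_filter] at hx hy
        exact Prod.ext (hx.2.trans hy.2.symm) hxy
      rw [← h5]
      refine hpP.1 _ ?_
      intro q hq
      rw [mem_image] at hq
      obtain ⟨z, hz, rfl⟩ := hq
      rw [mem_filter] at hz
      have := hT z hz.1
      rw [hz.2] at this
      exact this.2.2
    rw [h3]
    calc _ ≤ (C2 * (p / Real.log p ^ (2 + ε))) * (Real.log p / p) ^ 2 :=
          mul_le_mul_of_nonneg_right h4 (by positivity)
      _ = _ := by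
          rw [Real.rpow_add hl0, Real.rpow_two]
          field_simp
  refine (Finset.sum_le_sum hk).trans ?_
  rw [← Finset.mul_sum]
  refine mul_le_mul_of_nonneg_left (h1 _ ?_) hC2.le
  intro q hq
  rw [mem_image] at hq
  obtain ⟨z, hz, rfl⟩ := hq
  exact (hT z hz).2.1

/-- the tail of the geometric series -/
lemma geom_tail {b : ℕ} (hb : 2 ≤ b) {X : ℝ} (hX : 0 < X) (H : Finset ℕ)
    (hH : ∀ h ∈ H, X < (b : ℝ) ^ h) : ∑ h ∈ H, ((b : ℝ) ^ h)⁻¹ ≤ 2 / X := by
  classical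
  have hbr : (2 : ℝ) ≤ b := by exact_mod_cast hb
  rcases H.eq_empty_or_nonempty with rfl | hne
  · simp; positivity
  set m := H.min' hne with hm
  have hmX : X < (b : ℝ) ^ m := hH m (Finset.min'_mem _ _)
  have hsum : Summable (fun k : ℕ => ((b : ℝ)⁻¹) ^ k) :=
    summable_geometric_of_lt_one (by positivity) (inv_lt_one_of_one_lt₀ (by linarith))
  have h1 : ∑ h ∈ H, ((b : ℝ) ^ h)⁻¹ ≤ ((b : ℝ) ^ m)⁻¹ * ∑' k : ℕ, ((b : ℝ)⁻¹) ^ k := by
    have h2 : ∑ h ∈ H, ((b : ℝ) ^ h)⁻¹ = ((b : ℝ) ^ m)⁻¹ * ∑ k ∈ H.image (fun h => h - m), ((b : ℝ)⁻¹) ^ k := by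
      rw [Finset.sum_image, Finset.mul_sum]
      · refine Finset.sum_congr rfl fun h hh => ?_
        have h3 : m ≤ h := Finset.min'_le _ _ hh
        rw [inv_pow, ← mul_inv, ← pow_add, show m + (h - m) = h by omega]
      · intro x hx y hy hxy
        have h3 : m ≤ x := Finset.min'_le _ _ hx
        have h4 : m ≤ y := Finset.min'_le _ _ hy
        simp only at hxy
        omega
    rw [h2]
    exact mul_le_mul_of_nonneg_left (hsum.sum_le_tsum _ fun k _ => by positivity) (by positivity)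
  have h2 : ∑' k : ℕ, ((b : ℝ)⁻¹) ^ k ≤ 2 := by
    rw [tsum_geometric_of_lt_one (by positivity) (inv_lt_one_of_one_lt₀ (by linarith))]
    rw [inv_le_comm₀ _ (by norm_num)]
    · have : (b : ℝ)⁻¹ ≤ 2⁻¹ := inv_anti₀ (by norm_num) hbr
      linarith
    · have : (b : ℝ)⁻¹ ≤ 2⁻¹ := inv_anti₀ (by norm_num) hbr
      linarith
  have h3 : ((b : ℝ) ^ m)⁻¹ ≤ X⁻¹ := inv_anti₀ hX hmX.le
  calc _ ≤ _ := h1
    _ ≤ X⁻¹ * 2 := mul_le_mul h3 h2 (tsum_nonneg fun k => by positivity) (by positivity)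
    _ = 2 / X := by ring

/-- **Second sum.** -/
theorem sum_diag {b : ℕ} (hb : 2 ≤ b) {ε : ℝ} (hε : 0 < ε) : ∃ C : ℝ, 0 < C ∧ ∃ P : ℕ,
    ∀ T : Finset (ℕ × ℕ), (∀ z ∈ T, P ≤ z.1 ∧ z.1.Prime ∧ z.1 < z.2 ∧
      Real.log z.1 ^ (1 + ε) < (b : ℝ) ^ (z.2 - z.1)) →
    ∑ z ∈ T, ((b : ℝ) ^ (z.2 - z.1))⁻¹ * (Real.log z.1 / z.1) ≤ C := by
  classical
  obtain ⟨C1, hC1, h1⟩ := inv_log_rpow hε
  obtain ⟨P, hP⟩ := eventually_atTop.1 (ev_log (c := 1))
  refine ⟨2 * C1, by positivity, P + 2, fun T hT => ?_⟩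
  have hmap : ∀ z ∈ T, z.1 ∈ T.image Prod.fst := fun z hz => mem_image_of_mem _ hz
  rw [← Finset.sum_fiberwise_of_maps_to hmap]
  have hk : ∀ p ∈ T.image Prod.fst, ∑ z ∈ T.filter (fun z => z.1 = p),
      ((b : ℝ) ^ (z.2 - z.1))⁻¹ * (Real.log z.1 / z.1) ≤ 2 * (1 / ((p : ℝ) * Real.log p ^ ε)) := by
    intro p hp
    rw [mem_image] at hp
    obtain ⟨z0, hz0, hz0p⟩ := hp
    have hz0' := hT z0 hz0
    rw [hz0p] at hz0'
    have hpP := hP p (by omega)
    have hp0 : (0 : ℝ) < p := by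
      have := hz0'.2.1.pos
      exact_mod_cast this
    have hl0 : 0 < Real.log p := by linarith
    have h3 : ∑ z ∈ T.filter (fun z => z.1 = p), ((b : ℝ) ^ (z.2 - z.1))⁻¹ * (Real.log z.1 / z.1) =
        (∑ h ∈ (T.filter (fun z => z.1 = p)).image (fun z => z.2 - z.1), ((b : ℝ) ^ h)⁻¹) *
          (Real.log p / p) := by
      rw [Finset.sum_image, Finset.sum_mul]
      · refine Finset.sum_congr rfl fun z hz => ?_
        rw [(mem_filter.1 hz).2]
      · intro x hx y hy hxy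
        rw [Finset.mem_coe, mem_filter] at hx hy
        have h4 := (hT x hx.1).2.2.1
        have h5 := (hT y hy.1).2.2.1
        have h6 : x.1 = y.1 := hx.2.trans hy.2.symm
        refine Prod.ext h6 ?_
        simp only at hxy
        omega
    rw [h3]
    have h4 := geom_tail hb (X := Real.log p ^ (1 + ε)) (by positivity)
      ((T.filter (fun z => z.1 = p)).image (fun z => z.2 - z.1)) (by
        intro h hh
        rw [mem_image] at hh
        obtain ⟨z, hz, rfl⟩ := hh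
        rw [mem_filter] at hz
        have := (hT z hz.1).2.2.2
        rw [hz.2] at this ⊢
        exact this)
    calc _ ≤ 2 / Real.log p ^ (1 + ε) * (Real.log p / p) :=
          mul_le_mul_of_nonneg_right h4 (by positivity)
      _ = _ := by
          rw [Real.rpow_add hl0, Real.rpow_one]
          field_simp
  refine (Finset.sum_le_sum hk).trans ?_
  rw [← Finset.mul_sum]
  refine mul_le_mul_of_nonneg_left (h1 _ ?_) (by norm_num)
  intro q hq
  rw [mem_image] at hq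
  obtain ⟨z, hz, rfl⟩ := hq
  exact (hT z hz).2.1

end Pool.Agent.V60.Gap
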