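import Mathlib
import Pool.Agent.V60.Gap.Diag
import Pool.Agent.V60.Gap.Ser
import Pool.Agent.V60.Gap.BC
import Pool.Agent.TH888.R.Base

set_option autoImplicit false

/-!
# Close exponents have the same integer, up to a small power of the base
-/

namespace Pool.Agent.V60.Gap

open Finset Filter Topology MeasureTheory
open Pool.Agent.W66X
open Pool.Agent.H305R2 (roughPart ff NN measurable_ff measurable_NN ff_nonneg ff_le_one)
open Pool.Agent.TH888.R (ae_windows)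

lemma two_of_close {ε : ℝ} (hε : 0 < ε) {p q : ℕ} (hl : 1 ≤ Real.log p) (h : Close ε p q) :
    q ≤ 2 * p := by
  unfold Close at h
  have h1 : 1 ≤ Real.log p ^ (1 + ε) := Real.one_le_rpow hl (by linarith)
  have h2 : (p : ℝ) / Real.log p ^ (1 + ε) ≤ p := div_le_self (Nat.cast_nonneg p) h1
  have h3 : (q : ℝ) ≤ 2 * p := by linarith
  exact_mod_cast h3

theorem ae_close {b : ℕ} (hb : 2 ≤ b) {κ C : ℝ} (hκ0 : 0 ≤ κ) (hκ : κ < b) {g : ℕ → ℝ}
    (hg : ∀ p, |g p| ≤ C * κ ^ p) {ε : ℝ} (hε : 0 < ε) :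
    ∀ᵐ t : ℝ, ∃ P : ℕ, ∀ p q : ℕ, P ≤ p → p.Prime → q.Prime → p < q → Close ε p q →
      ff p (ysh b g p t) = 1 → ff q (ysh b g q t) = 1 →
      NN (ysh b g q t) = b ^ (q - p) * NN (ysh b g p t) ∧
        (b : ℝ) ^ (q - p) ≤ Real.log p ^ (1 + ε) := by
  refine ae_windows fun b0 => ?_
  obtain ⟨K1, hK1, P1, h1⟩ := near_new hb hκ0 hκ hg b0
  obtain ⟨K2, hK2, P2, h2⟩ := near_diag hb hκ0 hκ hg b0
  obtain ⟨C3, hC3, P3, h3⟩ := sum_close hε
  obtain ⟨C4, hC4, P4, h4⟩ := sum_diag hb hε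
  obtain ⟨P5, h5⟩ := eventually_atTop.1 (ev_log (c := 1))
  have hmy : ∀ m : ℕ, Measurable (fun t => ff m (ysh b g m t)) := fun m =>
    (measurable_ff m).comp (measurable_ysh _ _ _)
  set DA : Set (ℕ × ℕ) := {z | P1 + P2 + P3 + P4 + P5 ≤ z.1 ∧ z.1.Prime ∧ z.2.Prime ∧ z.1 < z.2 ∧
    Close ε z.1 z.2} with hDA
  set DB : Set (ℕ × ℕ) := {z | z ∈ DA ∧ Real.log z.1 ^ (1 + ε) < (b : ℝ) ^ (z.2 - z.1)} with hDB
  have hA := bc (μ := volume.restrict (Set.Ioc b0 (b0 + 1))) DA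
    (fun z t => ff z.1 (ysh b g z.1 t) * ff z.2 (ysh b g z.2 t) * nw b g z.1 z.2 t)
    (fun z => ((hmy z.1).mul (hmy z.2)).mul (measurable_nw b g z.1 z.2))
    (fun z t => mul_nonneg (mul_nonneg (ff_nonneg _ _) (ff_nonneg _ _)) (nw01 b g z.1 z.2 t).1)
    (fun z t => mul_le_one₀ (mul_le_one₀ (ff_le_one _ _) (ff_nonneg _ _) (ff_le_one _ _))
      (nw01 b g z.1 z.2 t).1 (nw01 b g z.1 z.2 t).2)
    (fun z => (Real.log z.1 / z.1) ^ 2) (K := K1) (C := C3) hK1.le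
    (by
      intro z hz
      exact h1 z.1 (by have := hz.1; omega) z.2 hz.2.2.2.1
        (two_of_close hε (h5 _ (by have := hz.1; omega)) hz.2.2.2.2))
    (by
      intro T hT
      refine h3 T fun z hz => ?_
      have := hT z hz
      exact ⟨by have := this.1; omega, this.2⟩)
  have hB := bc (μ := volume.restrict (Set.Ioc b0 (b0 + 1))) DB
    (fun z t => ff z.1 (ysh b g z.1 t) * (1 - nw b g z.1 z.2 t))
    (fun z => (hmy z.1).mul ((measurable_nw b g z.1 z.2).const_sub 1))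
    (fun z t => mul_nonneg (ff_nonneg _ _) (by linarith [(nw01 b g z.1 z.2 t).2]))
    (fun z t => mul_le_one₀ (ff_le_one _ _) (by linarith [(nw01 b g z.1 z.2 t).2])
      (by linarith [(nw01 b g z.1 z.2 t).1]))
    (fun z => ((b : ℝ) ^ (z.2 - z.1))⁻¹ * (Real.log z.1 / z.1)) (K := K2) (C := C4) hK2.le
    (by
      intro z hz
      exact h2 z.1 (by have := hz.1.1; omega) z.2 hz.1.2.2.2.1
        (two_of_close hε (h5 _ (by have := hz.1.1; omega)) hz.1.2.2.2.2))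
    (by
      intro T hT
      refine h4 T fun z hz => ?_
      have := hT z hz
      exact ⟨by have := this.1.1; omega, this.1.2.1, this.1.2.2.2.1, this.2⟩)
  filter_upwards [hA, hB] with t htA htB
  obtain ⟨QA, hQA⟩ := (htA.image Prod.fst).bddAbove
  obtain ⟨QB, hQB⟩ := (htB.image Prod.fst).bddAbove
  refine ⟨P1 + P2 + P3 + P4 + P5 + QA + QB + 1, fun p q hp hpp hqp hpq hcl hfp hfq => ?_⟩
  have hmemA : (p, q) ∈ DA := ⟨by simp only; omega, hpp, hqp, hpq, hcl⟩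
  have heq : NN (ysh b g q t) = b ^ (q - p) * NN (ysh b g p t) := by
    by_contra hne
    have h6 : p ∈ Prod.fst '' {i | i ∈ DA ∧ ff i.1 (ysh b g i.1 t) * ff i.2 (ysh b g i.2 t) *
        nw b g i.1 i.2 t = 1} := by
      refine ⟨(p, q), ⟨hmemA, ?_⟩, rfl⟩
      simp only
      rw [hfp, hfq]
      unfold nw
      rw [if_neg hne]
      norm_num
    have := hQA h6
    omega
  refine ⟨heq, ?_⟩
  by_contra hlt
  rw [not_le] at hlt
  have h6 : p ∈ Prod.fst '' {i | i ∈ DB ∧ ff i.1 (ysh b g i.1 t) * (1 - nw b g i.1 i.2 t) = 1} := by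
    refine ⟨(p, q), ⟨⟨hmemA, hlt⟩, ?_⟩, rfl⟩
    simp only
    rw [hfp]
    unfold nw
    rw [if_pos heq]
    norm_num
  have := hQB h6
  omega

/-- the statement for a sequence `N` of integers: any two close exponents have the same integer, up
to a small power of the base -/
def Spaced (b : ℕ) (N : ℕ → ℕ) : Prop := ∀ ε : ℝ, 0 < ε → ∃ P : ℕ, ∀ p q : ℕ, P ≤ p → p.Prime →
  q.Prime → p < q → (q : ℝ) - p < p / Real.log p ^ (1 + ε) →
  (roughPart p (N p)).Prime → (roughPart q (N q)).Prime →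
    N q = b ^ (q - p) * N p ∧ (b : ℝ) ^ (q - p) ≤ Real.log p ^ (1 + ε)

lemma ff_one {p : ℕ} {y : ℝ} (h : (roughPart p (NN y)).Prime) : ff p y = 1 := by
  unfold ff
  rw [if_pos h]

/-- a smaller `ε` gives the stronger statement -/
lemma close_mono {ε δ : ℝ} (hδε : δ ≤ ε) {p q : ℕ} (hl : 1 ≤ Real.log p) (h : Close ε p q) :
    Close δ p q := by
  unfold Close at *
  refine lt_of_lt_of_le h ?_
  exact div_le_div_of_nonneg_left (Nat.cast_nonneg p) (by positivity)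
    (Real.rpow_le_rpow_of_exponent_le hl (by linarith))

theorem ae_spaced {b : ℕ} (hb : 2 ≤ b) {κ C : ℝ} (hκ0 : 0 ≤ κ) (hκ : κ < b) {g : ℕ → ℝ}
    (hg : ∀ p, |g p| ≤ C * κ ^ p) : ∀ᵐ t : ℝ, Spaced b (fun p => NN (ysh b g p t)) := by
  have h1 : ∀ᵐ t : ℝ, ∀ n : ℕ, ∃ P : ℕ, ∀ p q : ℕ, P ≤ p → p.Prime → q.Prime → p < q →
      Close (1 / ((n : ℝ) + 1)) p q → ff p (ysh b g p t) = 1 → ff q (ysh b g q t) = 1 →
      NN (ysh b g q t) = b ^ (q - p) * NN (ysh b g p t) ∧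
        (b : ℝ) ^ (q - p) ≤ Real.log p ^ (1 + 1 / ((n : ℝ) + 1)) :=
    ae_all_iff.2 fun n => ae_close hb hκ0 hκ hg (by positivity)
  filter_upwards [h1] with t ht ε hε
  obtain ⟨n, hn⟩ := exists_nat_one_div_lt hε
  obtain ⟨P, hP⟩ := ht n
  obtain ⟨P5, h5⟩ := eventually_atTop.1 (ev_log (c := 1))
  refine ⟨P + P5, fun p q hp hpp hqp hpq hcl hfp hfq => ?_⟩
  have hl := h5 p (by omega)
  have h2 := hP p q (by omega) hpp hqp hpq (close_mono hn.le hl hcl) (ff_one hfp) (ff_one hfq)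
  exact ⟨h2.1, h2.2.trans (Real.rpow_le_rpow_of_exponent_le hl (by linarith))⟩

/-- the integers `⌈β b ^ p + g p⌉ - 1` -/
theorem spaced_ceil {b : ℕ} (hb : 2 ≤ b) {κ C : ℝ} (hκ0 : 0 ≤ κ) (hκ : κ < b) {g : ℕ → ℝ}
    (hg : ∀ p, |g p| ≤ C * κ ^ p) :
    ∀ᵐ β : ℝ, 0 < β → Spaced b (fun p => ⌈β * (b : ℝ) ^ p + g p⌉₊ - 1) := by
  have hb0 : (0 : ℝ) < b := by positivity
  refine ae_of_exp' (P := fun β : ℝ => Spaced b (fun p => ⌈β * (b : ℝ) ^ p + g p⌉₊ - 1)) ?_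
  filter_upwards [ae_spaced hb hκ0 hκ hg] with t ht ε hε
  obtain ⟨P, hP⟩ := eventually_atTop.1 (pert8 hb0 hκ0 hκ hg t 8)
  obtain ⟨P1, hP1⟩ := ht ε hε
  have e : ∀ p, P ≤ p → NN (ysh b g p t) = ⌈Real.exp t * (b : ℝ) ^ p + g p⌉₊ - 1 := by
    intro p hp
    unfold NN
    rw [(exp_ysh hb0 (hP p hp) le_rfl).1]
  refine ⟨P + P1, fun p q hp hpp hqp hpq hcl hfp hfq => ?_⟩
  have h1 : NN (ysh b g q t) = b ^ (q - p) * NN (ysh b g p t) ∧
      (b : ℝ) ^ (q - p) ≤ Real.log p ^ (1 + ε) :=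
    hP1 p q (by omega) hpp hqp hpq hcl
      (by
        show (roughPart p (NN (ysh b g p t))).Prime
        rw [e p (by omega)]
        exact hfp)
      (by
        show (roughPart q (NN (ysh b g q t))).Prime
        rw [e q (by omega)]
        exact hfq)
  rw [e p (by omega), e q (by omega)] at h1
  exact h1

/-- the integers `⌊β b ^ p + g p⌋` -/
theorem spaced_floor {b : ℕ} (hb : 2 ≤ b) {κ C : ℝ} (hκ0 : 0 ≤ κ) (hκ : κ < b) {g : ℕ → ℝ}
    (hg : ∀ p, |g p| ≤ C * κ ^ p) :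
    ∀ᵐ β : ℝ, 0 < β → Spaced b (fun p => ⌊β * (b : ℝ) ^ p + g p⌋₊) := by
  have hb0 : (0 : ℝ) < b := by positivity
  have h2 : ∀ᵐ t : ℝ, ∀ p m : ℕ, Real.exp t * (b : ℝ) ^ p + g p ≠ m := by
    have hnull : volume (⋃ p : ℕ, ⋃ m : ℕ, {t : ℝ | Real.exp t * (b : ℝ) ^ p + g p = m}) = 0 := by
      refine Set.Countable.measure_zero ?_ volume
      refine Set.countable_iUnion fun p => Set.countable_iUnion fun m => ?_
      refine Set.Subsingleton.countable ?_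
      intro s hs t ht
      simp only [Set.mem_ofPred_eq] at hs ht
      have h3 : Real.exp s * (b : ℝ) ^ p = Real.exp t * (b : ℝ) ^ p := by linarith
      exact Real.exp_injective (mul_right_cancel₀ (pow_pos hb0 p).ne' h3)
    have hae : ∀ᵐ t : ℝ, t ∉ ⋃ p : ℕ, ⋃ m : ℕ, {t : ℝ | Real.exp t * (b : ℝ) ^ p + g p = m} := by
      rw [ae_iff]
      refine measure_mono_null (fun t ht => ?_) hnull
      simpa only [Set.mem_ofPred_eq, not_not] using ht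
    filter_upwards [hae] with t ht p m hm
    refine ht ?_
    simp only [Set.mem_iUnion]
    exact ⟨p, m, hm⟩
  refine ae_of_exp' (P := fun β : ℝ => Spaced b (fun p => ⌊β * (b : ℝ) ^ p + g p⌋₊)) ?_
  filter_upwards [ae_spaced hb hκ0 hκ hg, h2] with t ht htn ε hε
  obtain ⟨P, hP⟩ := eventually_atTop.1 (pert8 hb0 hκ0 hκ hg t 8)
  obtain ⟨P1, hP1⟩ := ht ε hε
  have e : ∀ p, P ≤ p → NN (ysh b g p t) = ⌊Real.exp t * (b : ℝ) ^ p + g p⌋₊ := by
    intro p hp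
    unfold NN
    have hv := exp_ysh hb0 (hP p hp) le_rfl
    rw [hv.1]
    set v := Real.exp t * (b : ℝ) ^ p + g p with hvd
    have h3 : ⌈v⌉₊ = ⌊v⌋₊ + 1 := by
      rw [Nat.ceil_eq_iff (Nat.succ_ne_zero _)]
      constructor
      · rw [Nat.succ_sub_one]
        exact lt_of_le_of_ne (Nat.floor_le hv.2.1.le) fun h => htn p _ h.symm
      · push_cast
        exact (Nat.lt_floor_add_one v).le
    rw [h3, Nat.add_sub_cancel]
  refine ⟨P + P1, fun p q hp hpp hqp hpq hcl hfp hfq => ?_⟩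
  have h1 : NN (ysh b g q t) = b ^ (q - p) * NN (ysh b g p t) ∧
      (b : ℝ) ^ (q - p) ≤ Real.log p ^ (1 + ε) :=
    hP1 p q (by omega) hpp hqp hpq hcl
      (by
        show (roughPart p (NN (ysh b g p t))).Prime
        rw [e p (by omega)]
        exact hfp)
      (by
        show (roughPart q (NN (ysh b g q t))).Prime
        rw [e q (by omega)]
        exact hfq)
  rw [e p (by omega), e q (by omega)] at h1
  exact h1

lemma finite_small (D : Set (ℕ × ℕ)) (hD : ∀ z ∈ D, z.1 < z.2 ∧ z.2 ≤ 2 * z.1) (P : ℕ) :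
    {z | z ∈ D ∧ z.1 < P}.Finite := by
  refine ((Set.finite_Iio P).prod (Set.finite_Iio (2 * P))).subset ?_
  rintro z ⟨hz, hzP⟩
  have := hD z hz
  exact ⟨hzP, by simp only [Set.mem_Iio]; omega⟩

theorem ae_set {b : ℕ} (hb : 2 ≤ b) {κ C : ℝ} (hκ0 : 0 ≤ κ) (hκ : κ < b) {g : ℕ → ℝ}
    (hg : ∀ p, |g p| ≤ C * κ ^ p) (D : Set (ℕ × ℕ)) (hD : ∀ z ∈ D, z.1 < z.2 ∧ z.2 ≤ 2 * z.1)
    (hs : Summable (fun z : D => (Real.log z.1.1 / z.1.1) ^ 2)) :
    ∀ᵐ t : ℝ, {z | z ∈ D ∧ (roughPart z.1 (NN (ysh b g z.1 t))).Prime ∧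
      (roughPart z.2 (NN (ysh b g z.2 t))).Prime ∧
      NN (ysh b g z.2 t) ≠ b ^ (z.2 - z.1) * NN (ysh b g z.1 t)}.Finite := by
  refine ae_windows fun b0 => ?_
  obtain ⟨K1, hK1, P1, h1⟩ := near_new hb hκ0 hκ hg b0
  have hmy : ∀ m : ℕ, Measurable (fun t => ff m (ysh b g m t)) := fun m =>
    (measurable_ff m).comp (measurable_ysh _ _ _)
  have hA := bc (μ := volume.restrict (Set.Ioc b0 (b0 + 1))) {z | z ∈ D ∧ P1 ≤ z.1}
    (fun z t => ff z.1 (ysh b g z.1 t) * ff z.2 (ysh b g z.2 t) * nw b g z.1 z.2 t)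
    (fun z => ((hmy z.1).mul (hmy z.2)).mul (measurable_nw b g z.1 z.2))
    (fun z t => mul_nonneg (mul_nonneg (ff_nonneg _ _) (ff_nonneg _ _)) (nw01 b g z.1 z.2 t).1)
    (fun z t => mul_le_one₀ (mul_le_one₀ (ff_le_one _ _) (ff_nonneg _ _) (ff_le_one _ _))
      (nw01 b g z.1 z.2 t).1 (nw01 b g z.1 z.2 t).2)
    (fun z => (Real.log z.1 / z.1) ^ 2) (K := K1) (C := ∑' z : D, (Real.log z.1.1 / z.1.1) ^ 2) hK1.le
    (by
      intro z hz
      exact h1 z.1 hz.2 z.2 (hD z hz.1).1 (hD z hz.1).2)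
    (by
      classical
      intro T hT
      have h2 : ∑ z ∈ T, (Real.log z.1 / z.1) ^ 2 =
          ∑ z ∈ T.attach.image (fun z => (⟨z.1, (hT z.1 z.2).1⟩ : D)), (Real.log z.1.1 / z.1.1) ^ 2 := by
        rw [Finset.sum_image]
        · exact (Finset.sum_attach T (fun z => (Real.log z.1 / z.1) ^ 2)).symm
        · intro x _ y _ hxy
          have := congrArg Subtype.val hxy
          exact Subtype.ext this
      rw [h2]
      exact hs.sum_le_tsum _ fun z _ => sq_nonneg _)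
  filter_upwards [hA] with t htA
  refine (htA.union (finite_small D hD P1)).subset ?_
  rintro z ⟨hz, h3, h4, h5⟩
  rcases lt_or_ge z.1 P1 with h6 | h6
  · exact Or.inr ⟨hz, h6⟩
  · refine Or.inl ⟨⟨hz, h6⟩, ?_⟩
    rw [ff_one h3, ff_one h4]
    unfold nw
    rw [if_neg h5]
    norm_num

/-- the integers `⌈β b ^ p + g p⌉ - 1` -/
theorem set_ceil {b : ℕ} (hb : 2 ≤ b) {κ C : ℝ} (hκ0 : 0 ≤ κ) (hκ : κ < b) {g : ℕ → ℝ}
    (hg : ∀ p, |g p| ≤ C * κ ^ p) (D : Set (ℕ × ℕ)) (hD : ∀ z ∈ D, z.1 < z.2 ∧ z.2 ≤ 2 * z.1)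
    (hs : Summable (fun z : D => (Real.log z.1.1 / z.1.1) ^ 2)) :
    ∀ᵐ β : ℝ, 0 < β → {z | z ∈ D ∧ (roughPart z.1 (⌈β * (b : ℝ) ^ z.1 + g z.1⌉₊ - 1)).Prime ∧
      (roughPart z.2 (⌈β * (b : ℝ) ^ z.2 + g z.2⌉₊ - 1)).Prime ∧
      ⌈β * (b : ℝ) ^ z.2 + g z.2⌉₊ - 1 ≠ b ^ (z.2 - z.1) * (⌈β * (b : ℝ) ^ z.1 + g z.1⌉₊ - 1)}.Finite := by
  have hb0 : (0 : ℝ) < b := by positivity
  refine ae_of_exp' (P := fun β : ℝ => {z | z ∈ D ∧
      (roughPart z.1 (⌈β * (b : ℝ) ^ z.1 + g z.1⌉₊ - 1)).Prime ∧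
      (roughPart z.2 (⌈β * (b : ℝ) ^ z.2 + g z.2⌉₊ - 1)).Prime ∧
      ⌈β * (b : ℝ) ^ z.2 + g z.2⌉₊ - 1 ≠
        b ^ (z.2 - z.1) * (⌈β * (b : ℝ) ^ z.1 + g z.1⌉₊ - 1)}.Finite) ?_
  filter_upwards [ae_set hb hκ0 hκ hg D hD hs] with t ht
  obtain ⟨P, hP⟩ := eventually_atTop.1 (pert8 hb0 hκ0 hκ hg t 8)
  have e : ∀ p, P ≤ p → NN (ysh b g p t) = ⌈Real.exp t * (b : ℝ) ^ p + g p⌉₊ - 1 := by
    intro p hp
    unfold NN
    rw [(exp_ysh hb0 (hP p hp) le_rfl).1]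
  refine (ht.union (finite_small D hD P)).subset ?_
  rintro z ⟨hz, h3, h4, h5⟩
  rcases lt_or_ge z.1 P with h6 | h6
  · exact Or.inr ⟨hz, h6⟩
  · have h7 := (hD z hz).1
    refine Or.inl ⟨hz, ?_⟩
    rw [e z.1 h6, e z.2 (by omega)]
    exact ⟨h3, h4, h5⟩

end Pool.Agent.V60.Gap
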