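import Mathlib
import Pool.Agent.H305R2.Rough

set_option autoImplicit false

/-!
# Rough parts of an integer and of its product with a power of the base
-/

namespace Pool.Agent.V60.Gap

open Pool.Agent.H305R2 (roughPart)

lemma filter_prod_dvd {l : List ℕ} {p q : ℕ} (hpq : p ≤ q) :
    (l.filter (fun r => q < r)).prod ∣ (l.filter (fun r => p < r)).prod := by
  induction l with
  | nil => simp
  | cons a l ih =>
    by_cases h1 : q < a
    · have h2 : p < a := by omega
      rw [List.filter_cons_of_pos (by simpa using h1), List.filter_cons_of_pos (by simpa using h2),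
        List.prod_cons, List.prod_cons]
      exact Nat.mul_dvd_mul_left a ih
    · rw [List.filter_cons_of_neg (by simpa using h1)]
      by_cases h2 : p < a
      · rw [List.filter_cons_of_pos (by simpa using h2), List.prod_cons]
        exact ih.mul_left a
      · rw [List.filter_cons_of_neg (by simpa using h2)]
        exact ih

lemma rough_dvd {p q m : ℕ} (hpq : p ≤ q) : roughPart q m ∣ roughPart p m := filter_prod_dvd hpq

lemma rough_pow_mul {b q h m : ℕ} (hb : 1 ≤ b) (hbq : b ≤ q) :
    roughPart q (b ^ h * m) = roughPart q m := by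
  rcases Nat.eq_zero_or_pos m with rfl | hm
  · rw [mul_zero]
  have hbh : b ^ h ≠ 0 := by positivity
  unfold roughPart
  have h1 := (Nat.perm_primeFactorsList_mul hbh hm.ne').filter (fun r => decide (q < r))
  rw [h1.prod_eq, List.filter_append, List.prod_append]
  have h2 : ((b ^ h).primeFactorsList.filter (fun r => decide (q < r))) = [] := by
    rw [List.filter_eq_nil_iff]
    intro r hr
    have h3 := Nat.dvd_of_mem_primeFactorsList hr
    have h4 := (Nat.prime_of_mem_primeFactorsList hr).dvd_of_dvd_pow h3
    have h5 := Nat.le_of_dvd (by omega) h4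
    simp only [decide_eq_true_eq]
    omega
  rw [h2, List.prod_nil, one_mul]

/-- both rough parts are the same prime -/
theorem same_prime {b p q : ℕ} (hb : 1 ≤ b) (hbq : b ≤ q) (hpq : p ≤ q) {m m' : ℕ} {h : ℕ}
    (hm : m' = b ^ h * m) (h1 : (roughPart p m).Prime) (h2 : (roughPart q m').Prime) :
    roughPart q m' = roughPart p m := by
  rw [hm, rough_pow_mul hb hbq] at h2 ⊢
  exact (Nat.prime_dvd_prime_iff_eq h2 h1).1 (rough_dvd hpq)

end Pool.Agent.V60.Gap
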