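import Mathlib
import Pool.Agent.V60.Gap.Main
import Pool.Agent.V60.Gap.Same

set_option autoImplicit false

/-!
# Sets of pairs of exponents, for the integers `⌊β b ^ p + g p⌋`
-/

namespace Pool.Agent.V60.Gap

open Finset Filter Topology MeasureTheory
open Pool.Agent.W66X
open Pool.Agent.H305R2 (roughPart ff NN measurable_ff measurable_NN ff_nonneg ff_le_one)

lemma ae_not_int {b : ℝ} (hb0 : 0 < b) (g : ℕ → ℝ) :
    ∀ᵐ β : ℝ, ∀ p m : ℕ, β * b ^ p + g p ≠ m := by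
  have hnull : volume (⋃ p : ℕ, ⋃ m : ℕ, {β : ℝ | β * b ^ p + g p = m}) = 0 := by
    refine Set.Countable.measure_zero ?_ volume
    refine Set.countable_iUnion fun p => Set.countable_iUnion fun m => ?_
    refine Set.Subsingleton.countable ?_
    intro s hs t ht
    simp only [Set.mem_ofPred_eq] at hs ht
    have h3 : s * b ^ p = t * b ^ p := by linarith
    exact mul_right_cancel₀ (pow_pos hb0 p).ne' h3
  have hae : ∀ᵐ β : ℝ, β ∉ ⋃ p : ℕ, ⋃ m : ℕ, {β : ℝ | β * b ^ p + g p = m} := by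
    rw [ae_iff]
    refine measure_mono_null (fun t ht => ?_) hnull
    simpa only [Set.mem_ofPred_eq, not_not] using ht
  filter_upwards [hae] with β hβ p m hm
  refine hβ ?_
  simp only [Set.mem_iUnion]
  exact ⟨p, m, hm⟩

/-- the integers `⌊β b ^ p + g p⌋` -/
theorem set_floor {b : ℕ} (hb : 2 ≤ b) {κ C : ℝ} (hκ0 : 0 ≤ κ) (hκ : κ < b) {g : ℕ → ℝ}
    (hg : ∀ p, |g p| ≤ C * κ ^ p) (D : Set (ℕ × ℕ)) (hD : ∀ z ∈ D, z.1 < z.2 ∧ z.2 ≤ 2 * z.1)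
    (hs : Summable (fun z : D => (Real.log z.1.1 / z.1.1) ^ 2)) :
    ∀ᵐ β : ℝ, 0 < β → {z | z ∈ D ∧ (roughPart z.1 ⌊β * (b : ℝ) ^ z.1 + g z.1⌋₊).Prime ∧
      (roughPart z.2 ⌊β * (b : ℝ) ^ z.2 + g z.2⌋₊).Prime ∧
      ⌊β * (b : ℝ) ^ z.2 + g z.2⌋₊ ≠ b ^ (z.2 - z.1) * ⌊β * (b : ℝ) ^ z.1 + g z.1⌋₊}.Finite := by
  have hb0 : (0 : ℝ) < b := by positivity
  filter_upwards [set_ceil hb hκ0 hκ hg D hD hs, ae_not_int hb0 g] with β h hn hβ
  have hpos : ∃ P : ℕ, ∀ p ≥ P, 0 < β * (b : ℝ) ^ p + g p := by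
    obtain ⟨P, hP⟩ := eventually_atTop.1 (pert8 hb0 hκ0 hκ hg (Real.log β) 8)
    refine ⟨P, fun p hp => ?_⟩
    have := (exp_ysh hb0 (hP p hp) le_rfl).2.1
    rw [Real.exp_log hβ] at this
    exact this
  obtain ⟨P, hP⟩ := hpos
  have e : ∀ p, P ≤ p → ⌈β * (b : ℝ) ^ p + g p⌉₊ - 1 = ⌊β * (b : ℝ) ^ p + g p⌋₊ := by
    intro p hp
    set v := β * (b : ℝ) ^ p + g p with hvd
    have h3 : ⌈v⌉₊ = ⌊v⌋₊ + 1 := by
      rw [Nat.ceil_eq_iff (Nat.succ_ne_zero _)]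
      constructor
      · rw [Nat.succ_sub_one]
        exact lt_of_le_of_ne (Nat.floor_le (hP p hp).le) fun h => hn p _ h.symm
      · push_cast
        exact (Nat.lt_floor_add_one v).le
    rw [h3, Nat.add_sub_cancel]
  refine ((h hβ).union (finite_small D hD P)).subset ?_
  rintro z ⟨hz, h3, h4, h5⟩
  rcases lt_or_ge z.1 P with h6 | h6
  · exact Or.inr ⟨hz, h6⟩
  · have h7 := (hD z hz).1
    refine Or.inl ⟨hz, ?_⟩
    rw [e z.1 h6, e z.2 (by omega)]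
    exact ⟨h3, h4, h5⟩

end Pool.Agent.V60.Gap
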