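import Mathlib
import Pool.Agent.W66.GE
import Pool.Agent.V60.Gap.Ser
import Pool.Agent.V60.Gap.BC
import Pool.Agent.TH888.R.Base
import Pool.Agent.H19P.QA

set_option autoImplicit false

/-!
# Close exponents for a base without multiplicative coincidences

The pair sieve of `Pool.Agent.W66.GE` (`near_irr`) without the diagonal term, and the lemma of Borel
and Cantelli.
-/

namespace Pool.Agent.V60.Gap

open Finset MeasureTheory Filter Topology
open Pool.Agent.W66V
open Pool.Agent.W66 (no_mid_prime NN_bounds exp_small large_smooth_count)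
open Pool.Agent.W66X (ysh measurable_ysh pert8 exp_ysh exp_consts ae_of_exp')
open Pool.Agent.H305R2 (roughPart NN ff measurable_NN measurable_ff ff_nonneg ff_le_one ZZ ZZ_nonneg
  ZZ_le_exp integral_ind integral_ind_le log_nat_tendsto)
open Pool.Agent.H447R2.ML (Sh sh_of)
open Pool.Agent.TH888.R (ae_windows)

/-- **Near pairs.** -/
theorem near_irr2 {α κ C A : ℝ} (hα : 1 < α) (hκ0 : 0 ≤ κ) (hκ : κ < α) {g : ℕ → ℝ}
    (hg : ∀ p, |g p| ≤ C * κ ^ p) (hA : 1 ≤ A) (hAα : A < α)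
    (hdio : ∀ h a b : ℕ, 1 ≤ h → 1 ≤ a → 1 ≤ b → 1 ≤ |(a : ℝ) - b * α ^ h| * (A ^ h * (a + b)))
    (b0 : ℝ) : ∃ K : ℝ, 0 < K ∧ ∃ P : ℕ, ∀ p ≥ P, ∀ q : ℕ, p < q →
    q ≤ 2 * p → ∫ t in Set.Ioc b0 (b0 + 1), ff p (ysh α g p t) * ff q (ysh α g q t) ≤
      K * (Real.log p / p) ^ 2 := by
  classical
  have hα0 : 0 < α := by linarith
  set L := Real.log α with hL
  have hLpos : 0 < L := Real.log_pos hα
  obtain ⟨K1, hK1, hW⟩ := near_window hα hκ0 hκ hg hA hAα hdio b0
  have hbig := large_part hα hκ0 hκ hg b0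
  have hsh := sh_of hα0 hκ0 hκ hg b0 (b0 + 1)
  have hpert := pert8 hα0 hκ0 hκ hg b0 8
  have hsm := exp_small (c := 3 * L / 32) (by positivity)
  obtain ⟨P, hP⟩ := eventually_atTop.1 (hW.and (hbig.and (hsh.and (hpert.and (hsm.and
    (eventually_ge_atTop 3))))))
  refine ⟨4 * K1 + 64, by positivity, P, fun p hp q hpq hq2 => ?_⟩
  obtain ⟨hWp, hbp, hshp, hpp, hsmp, hp3⟩ := hP p hp
  obtain ⟨_, hbq, hshq, hpq8, _, _⟩ := hP q (by omega)
  obtain ⟨h, rfl⟩ : ∃ h, q = p + h := ⟨q - p, by omega⟩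
  have hh1 : 1 ≤ h := by omega
  have hhp : h ≤ p := by omega
  have hp3' : (3 : ℝ) ≤ p := by exact_mod_cast hp3
  have hp0 : (0 : ℝ) < p := by linarith
  set w := Real.log p / p with hw
  have hw0 : 0 ≤ w := div_nonneg (Real.log_natCast_nonneg p) hp0.le
  set G : ℝ → ℝ := fun y => if good α p y ∧ good α (p + h)
    (Real.log (α ^ h * Real.exp y + (g (p + h) - α ^ h * g p))) then (1 : ℝ) else 0 with hG
  have hGm : Measurable G := by
    refine Measurable.ite ?_ measurable_const measurable_const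
    refine (measurableSet_good α p).inter ?_
    have h1 : Measurable (fun y : ℝ => Real.log (α ^ h * Real.exp y + (g (p + h) - α ^ h * g p))) :=
      Real.measurable_log.comp ((Real.measurable_exp.const_mul _).add_const _)
    exact h1 (measurableSet_good α (p + h))
  have hG0 : ∀ y, 0 ≤ G y := fun y => by simp only [hG]; split_ifs <;> norm_num
  have hG1 : ∀ y, G y ≤ 1 := fun y => by simp only [hG]; split_ifs <;> norm_num
  set Bp : ℝ → ℝ := fun t => if bad α p (ysh α g p t) then (1 : ℝ) else 0 with hBp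
  set Bq : ℝ → ℝ := fun t => if bad α (p + h) (ysh α g (p + h) t) then (1 : ℝ) else 0 with hBq
  have hBp0 : ∀ t, 0 ≤ Bp t := fun y => by simp only [hBp]; split_ifs <;> norm_num
  have hBq0 : ∀ t, 0 ≤ Bq t := fun y => by simp only [hBq]; split_ifs <;> norm_num
  -- the relation between the two phases
  have hrel : ∀ t ∈ Set.Ioc b0 (b0 + 1), ysh α g (p + h) t =
      Real.log (α ^ h * Real.exp (ysh α g p t) + (g (p + h) - α ^ h * g p)) := by
    intro t ht
    rw [(exp_ysh hα0 hpp ht.1.le).1]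
    unfold ysh
    congr 1
    rw [pow_add]
    ring
  have hpt : ∀ t ∈ Set.Ioc b0 (b0 + 1), ff p (ysh α g p t) * ff (p + h) (ysh α g (p + h) t) ≤
      Bp t + Bq t + G (ysh α g p t) := by
    intro t ht
    have e1 := hBp0 t
    have e2 := hBq0 t
    have e3 := hG0 (ysh α g p t)
    unfold ff
    by_cases h1 : (roughPart p (NN (ysh α g p t))).Prime
    · by_cases h2 : (roughPart (p + h) (NN (ysh α g (p + h) t))).Prime
      · rw [if_pos h1, if_pos h2, mul_one]
        by_cases h3 : bad α p (ysh α g p t)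
        · have : Bp t = 1 := by simp only [hBp]; rw [if_pos h3]
          linarith
        · by_cases h4 : bad α (p + h) (ysh α g (p + h) t)
          · have : Bq t = 1 := by simp only [hBq]; rw [if_pos h4]
            linarith
          · have h5 : good α p (ysh α g p t) := ⟨h1, by
              by_contra hc
              exact h3 ⟨h1, not_lt.1 hc⟩⟩
            have h6 : good α (p + h) (ysh α g (p + h) t) := ⟨h2, by
              by_contra hc
              exact h4 ⟨h2, not_lt.1 hc⟩⟩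
            rw [hrel t ht] at h6
            have : G (ysh α g p t) = 1 := by simp only [hG]; rw [if_pos ⟨h5, h6⟩]
            linarith
      · rw [if_neg h2, mul_zero]; linarith
    · rw [if_neg h1, zero_mul]; linarith
  have hmy : ∀ m : ℕ, Measurable (fun t => ff m (ysh α g m t)) := fun m =>
    (measurable_ff m).comp (measurable_ysh _ _ _)
  have hint1 : IntegrableOn (fun t : ℝ => ff p (ysh α g p t) * ff (p + h) (ysh α g (p + h) t))
      (Set.Ioc b0 (b0 + 1)) := by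
    refine Measure.integrableOn_of_bounded (M := 1) (by simp) ((hmy p).mul (hmy (p + h))).aestronglyMeasurable ?_
    refine Eventually.of_forall fun t => ?_
    have h1 := ff_nonneg p (ysh α g p t)
    have h2 := ff_nonneg (p + h) (ysh α g (p + h) t)
    have h3 := ff_le_one p (ysh α g p t)
    have h4 := ff_le_one (p + h) (ysh α g (p + h) t)
    rw [Real.norm_eq_abs, abs_of_nonneg (mul_nonneg h1 h2)]
    exact mul_le_one₀ h3 h2 h4
  have hiB : ∀ m : ℕ, IntegrableOn (fun t : ℝ => if bad α m (ysh α g m t) then (1 : ℝ) else 0)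
      (Set.Ioc b0 (b0 + 1)) := by
    intro m
    refine Measure.integrableOn_of_bounded (M := 1) (by simp) ?_ ?_
    · exact (Measurable.ite ((measurable_ysh α g m) (measurableSet_bad α m)) measurable_const
        measurable_const).aestronglyMeasurable
    · refine Eventually.of_forall fun t => ?_
      split_ifs <;> simp
  have hiG : IntegrableOn (fun t : ℝ => G (ysh α g p t)) (Set.Ioc b0 (b0 + 1)) := by
    refine Measure.integrableOn_of_bounded (M := 1) (by simp)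
      (hGm.comp (measurable_ysh _ _ _)).aestronglyMeasurable ?_
    refine Eventually.of_forall fun t => ?_
    rw [Real.norm_eq_abs, abs_of_nonneg (hG0 _)]
    exact hG1 _
  have hstep : ∫ t in Set.Ioc b0 (b0 + 1), ff p (ysh α g p t) * ff (p + h) (ysh α g (p + h) t) ≤
      (∫ t in Set.Ioc b0 (b0 + 1), Bp t) + (∫ t in Set.Ioc b0 (b0 + 1), Bq t) +
        ∫ t in Set.Ioc b0 (b0 + 1), G (ysh α g p t) := by
    have i1 : IntegrableOn (fun t => Bp t + Bq t) (Set.Ioc b0 (b0 + 1)) := (hiB p).add (hiB (p + h))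
    rw [← integral_add (hiB p) (hiB (p + h)), ← integral_add i1 hiG]
    exact setIntegral_mono_on hint1 (i1.add hiG) measurableSet_Ioc hpt
  -- the main part
  set Y := L * p + (b0 - 1 / 2) with hY
  have hrange := sh_range hshp hp3
  have hw1 := hWp h hh1 hhp Y le_rfl
  have hw2 := hWp h hh1 hhp (Y + 1) (by linarith)
  have hcov := (Sh.cov hshp hp3 (s := b0) (t := b0 + 1) le_rfl (by linarith) le_rfl
      (F := G) hGm hG0 hG1).1
  have hGint : ∀ u v : ℝ, IntegrableOn G (Set.Ioc u v) := by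
    intro u v
    refine Measure.integrableOn_of_bounded (M := 1) (by simp) hGm.aestronglyMeasurable ?_
    refine Eventually.of_forall fun t => ?_
    rw [Real.norm_eq_abs, abs_of_nonneg (hG0 _)]
    exact hG1 _
  have hmain : ∫ u in Set.Ioc (ysh α g p b0) (ysh α g p (b0 + 1)), G u ≤ 2 * K1 * w ^ 2 := by
    have r1 := (hrange b0 ⟨le_rfl, by linarith⟩).1
    have r2 := (hrange (b0 + 1) ⟨by linarith, le_rfl⟩).2
    have r1' : Y < ysh α g p b0 := r1
    have r2' : ysh α g p (b0 + 1) ≤ Y + 2 := r2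
    have hsub : Set.Ioc (ysh α g p b0) (ysh α g p (b0 + 1)) ⊆ Set.Ioc Y (Y + 1) ∪ Set.Ioc (Y + 1) (Y + 1 + 1) := by
      intro u hu
      rcases le_or_gt u (Y + 1) with hc | hc
      · exact Or.inl ⟨by linarith [hu.1], hc⟩
      · exact Or.inr ⟨hc, by linarith [hu.2]⟩
    calc ∫ u in Set.Ioc (ysh α g p b0) (ysh α g p (b0 + 1)), G u ≤
          ∫ u in Set.Ioc Y (Y + 1) ∪ Set.Ioc (Y + 1) (Y + 1 + 1), G u := by
          refine setIntegral_mono_set ((hGint _ _).union (hGint _ _)) ?_ ?_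
          · exact Eventually.of_forall hG0
          · exact (HasSubset.Subset.eventuallyLE hsub)
      _ = (∫ u in Set.Ioc Y (Y + 1), G u) + ∫ u in Set.Ioc (Y + 1) (Y + 1 + 1), G u := by
          refine setIntegral_union ?_ measurableSet_Ioc (hGint _ _) (hGint _ _)
          rw [Set.disjoint_left]
          intro u hu1 hu2
          exact absurd hu1.2 (not_le.2 hu2.1)
      _ ≤ K1 * w ^ 2 + K1 * w ^ 2 := add_le_add hw1 hw2
      _ = _ := by ring
  have hGnn : 0 ≤ ∫ t in Set.Ioc b0 (b0 + 1), G (ysh α g p t) := integral_nonneg fun t => hG0 _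
  have h4 : 1 / (p : ℝ) ≤ 1 / 2 := one_div_le_one_div_of_le (by norm_num) (by linarith)
  have hmain2 : ∫ t in Set.Ioc b0 (b0 + 1), G (ysh α g p t) ≤ 4 * K1 * w ^ 2 := by
    have h5 := mul_le_mul_of_nonneg_right (show 1 / 2 ≤ 1 - 1 / (p : ℝ) by linarith) hGnn
    have h6 : (1 - 1 / (p : ℝ)) * ∫ t in Set.Ioc b0 (b0 + 1), G (ysh α g p t) ≤ 2 * K1 * w ^ 2 :=
      le_trans hcov hmain
    linarith
  have hBpb : ∫ t in Set.Ioc b0 (b0 + 1), Bp t ≤ 32 * w ^ 2 := by
    refine hbp.trans ?_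
    linarith
  have hBqb : ∫ t in Set.Ioc b0 (b0 + 1), Bq t ≤ 32 * w ^ 2 := by
    refine hbq.trans ?_
    have h6 : Real.exp (-(3 * L / 32 * ((p + h : ℕ) : ℝ))) ≤ Real.exp (-(3 * L / 32 * p)) := by
      rw [Real.exp_le_exp]
      push_cast
      have : 0 ≤ 3 * L / 32 * (h : ℝ) := by positivity
      linarith
    linarith
  have hw20 : 0 ≤ w ^ 2 := sq_nonneg _
  calc _ ≤ _ := hstep
    _ ≤ 32 * w ^ 2 + 32 * w ^ 2 + 4 * K1 * w ^ 2 := add_le_add (add_le_add hBpb hBqb) hmain2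
    _ = (4 * K1 + 64) * w ^ 2 := by ring

/-- consecutive exponents are far apart -/
def Sparse (N : ℕ → ℕ) : Prop := ∀ ε : ℝ, 0 < ε → ∃ P : ℕ, ∀ p q : ℕ, P ≤ p → p.Prime →
  q.Prime → p < q → (roughPart p (N p)).Prime → (roughPart q (N q)).Prime →
    (p : ℝ) / Real.log p ^ (1 + ε) ≤ q - p

lemma two_of_close' {ε : ℝ} (hε : 0 < ε) {p q : ℕ} (hl : 1 ≤ Real.log p) (h : Close ε p q) :
    q ≤ 2 * p := by
  unfold Close at h
  have h1 : 1 ≤ Real.log p ^ (1 + ε) := Real.one_le_rpow hl (by linarith)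
  have h2 : (p : ℝ) / Real.log p ^ (1 + ε) ≤ p := div_le_self (Nat.cast_nonneg p) h1
  have h3 : (q : ℝ) ≤ 2 * p := by linarith
  exact_mod_cast h3

lemma close_mono' {ε δ : ℝ} (hδε : δ ≤ ε) {p q : ℕ} (hl : 1 ≤ Real.log p) (h : Close ε p q) :
    Close δ p q := by
  unfold Close at *
  refine lt_of_lt_of_le h ?_
  exact div_le_div_of_nonneg_left (Nat.cast_nonneg p) (by positivity)
    (Real.rpow_le_rpow_of_exponent_le hl (by linarith))

theorem ae_close_irr {α κ C A : ℝ} (hα : 1 < α) (hκ0 : 0 ≤ κ) (hκ : κ < α) {g : ℕ → ℝ}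
    (hg : ∀ p, |g p| ≤ C * κ ^ p) (hA : 1 ≤ A) (hAα : A < α)
    (hdio : ∀ h a b : ℕ, 1 ≤ h → 1 ≤ a → 1 ≤ b → 1 ≤ |(a : ℝ) - b * α ^ h| * (A ^ h * (a + b)))
    {ε : ℝ} (hε : 0 < ε) :
    ∀ᵐ t : ℝ, ∃ P : ℕ, ∀ p q : ℕ, P ≤ p → p.Prime → q.Prime → p < q → Close ε p q →
      ff p (ysh α g p t) = 1 → ff q (ysh α g q t) = 1 → False := by
  refine ae_windows fun b0 => ?_
  obtain ⟨K1, hK1, P1, h1⟩ := near_irr2 hα hκ0 hκ hg hA hAα hdio b0
  obtain ⟨C3, hC3, P3, h3⟩ := sum_close hε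
  obtain ⟨P5, h5⟩ := eventually_atTop.1 (ev_log (c := 1))
  have hmy : ∀ m : ℕ, Measurable (fun t => ff m (ysh α g m t)) := fun m =>
    (measurable_ff m).comp (measurable_ysh _ _ _)
  set DA : Set (ℕ × ℕ) := {z | P1 + P3 + P5 ≤ z.1 ∧ z.1.Prime ∧ z.2.Prime ∧ z.1 < z.2 ∧
    Close ε z.1 z.2} with hDA
  have hA := bc (μ := volume.restrict (Set.Ioc b0 (b0 + 1))) DA
    (fun z t => ff z.1 (ysh α g z.1 t) * ff z.2 (ysh α g z.2 t))
    (fun z => (hmy z.1).mul (hmy z.2))
    (fun z t => mul_nonneg (ff_nonneg _ _) (ff_nonneg _ _))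
    (fun z t => mul_le_one₀ (ff_le_one _ _) (ff_nonneg _ _) (ff_le_one _ _))
    (fun z => (Real.log z.1 / z.1) ^ 2) (K := K1) (C := C3) hK1.le
    (by
      intro z hz
      exact h1 z.1 (by have := hz.1; omega) z.2 hz.2.2.2.1
        (two_of_close' hε (h5 _ (by have := hz.1; omega)) hz.2.2.2.2))
    (by
      intro T hT
      refine h3 T fun z hz => ?_
      have := hT z hz
      exact ⟨by have := this.1; omega, this.2⟩)
  filter_upwards [hA] with t htA
  obtain ⟨QA, hQA⟩ := (htA.image Prod.fst).bddAbove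
  refine ⟨P1 + P3 + P5 + QA + 1, fun p q hp hpp hqp hpq hcl hfp hfq => ?_⟩
  have hmemA : (p, q) ∈ DA := ⟨by simp only; omega, hpp, hqp, hpq, hcl⟩
  have h6 : p ∈ Prod.fst '' {i | i ∈ DA ∧ ff i.1 (ysh α g i.1 t) * ff i.2 (ysh α g i.2 t) = 1} := by
    refine ⟨(p, q), ⟨hmemA, ?_⟩, rfl⟩
    simp only
    rw [hfp, hfq]
    norm_num
  have := hQA h6
  omega

theorem ae_sparse {α κ C A : ℝ} (hα : 1 < α) (hκ0 : 0 ≤ κ) (hκ : κ < α) {g : ℕ → ℝ}
    (hg : ∀ p, |g p| ≤ C * κ ^ p) (hA : 1 ≤ A) (hAα : A < α)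
    (hdio : ∀ h a b : ℕ, 1 ≤ h → 1 ≤ a → 1 ≤ b → 1 ≤ |(a : ℝ) - b * α ^ h| * (A ^ h * (a + b))) :
    ∀ᵐ t : ℝ, Sparse (fun p => NN (ysh α g p t)) := by
  have h1 := ae_all_iff.2 fun n : ℕ =>
    ae_close_irr hα hκ0 hκ hg hA hAα hdio (ε := 1 / ((n : ℝ) + 1)) (by positivity)
  filter_upwards [h1] with t ht ε hε
  obtain ⟨n, hn⟩ := exists_nat_one_div_lt hε
  obtain ⟨P, hP⟩ := ht n
  obtain ⟨P5, h5⟩ := eventually_atTop.1 (ev_log (c := 1))
  refine ⟨P + P5, fun p q hp hpp hqp hpq hfp hfq => ?_⟩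
  have hl := h5 p (by omega)
  by_contra hcl
  rw [not_le] at hcl
  refine hP p q (by omega) hpp hqp hpq (close_mono' hn.le hl hcl) ?_ ?_
  · unfold ff
    rw [if_pos hfp]
  · unfold ff
    rw [if_pos hfq]

/-- the integers `⌊β α ^ p + g p⌋` -/
theorem sparse_floor {α κ C A : ℝ} (hα : 1 < α) (hκ0 : 0 ≤ κ) (hκ : κ < α) {g : ℕ → ℝ}
    (hg : ∀ p, |g p| ≤ C * κ ^ p) (hA : 1 ≤ A) (hAα : A < α)
    (hdio : ∀ h a b : ℕ, 1 ≤ h → 1 ≤ a → 1 ≤ b → 1 ≤ |(a : ℝ) - b * α ^ h| * (A ^ h * (a + b))) :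
    ∀ᵐ β : ℝ, 0 < β → Sparse (fun p => ⌊β * α ^ p + g p⌋₊) := by
  have hb0 : (0 : ℝ) < α := by linarith
  have h2 : ∀ᵐ t : ℝ, ∀ p m : ℕ, Real.exp t * α ^ p + g p ≠ m := by
    have hnull : volume (⋃ p : ℕ, ⋃ m : ℕ, {t : ℝ | Real.exp t * α ^ p + g p = m}) = 0 := by
      refine Set.Countable.measure_zero ?_ volume
      refine Set.countable_iUnion fun p => Set.countable_iUnion fun m => ?_
      refine Set.Subsingleton.countable ?_
      intro s hs t ht
      simp only [Set.mem_ofPred_eq] at hs ht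
      have h3 : Real.exp s * α ^ p = Real.exp t * α ^ p := by linarith
      exact Real.exp_injective (mul_right_cancel₀ (pow_pos hb0 p).ne' h3)
    have hae : ∀ᵐ t : ℝ, t ∉ ⋃ p : ℕ, ⋃ m : ℕ, {t : ℝ | Real.exp t * α ^ p + g p = m} := by
      rw [ae_iff]
      refine measure_mono_null (fun t ht => ?_) hnull
      simpa only [Set.mem_ofPred_eq, not_not] using ht
    filter_upwards [hae] with t ht p m hm
    refine ht ?_
    simp only [Set.mem_iUnion]
    exact ⟨p, m, hm⟩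
  refine ae_of_exp' (P := fun β : ℝ => Sparse (fun p => ⌊β * α ^ p + g p⌋₊)) ?_
  filter_upwards [ae_sparse hα hκ0 hκ hg hA hAα hdio, h2] with t ht htn ε hε
  obtain ⟨P, hP⟩ := eventually_atTop.1 (pert8 hb0 hκ0 hκ hg t 8)
  obtain ⟨P1, hP1⟩ := ht ε hε
  have e : ∀ p, P ≤ p → NN (ysh α g p t) = ⌊Real.exp t * α ^ p + g p⌋₊ := by
    intro p hp
    unfold NN
    have hv := exp_ysh hb0 (hP p hp) le_rfl
    rw [hv.1]
    set v := Real.exp t * α ^ p + g p with hvd
    have h3 : ⌈v⌉₊ = ⌊v⌋₊ + 1 := by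
      rw [Nat.ceil_eq_iff (Nat.succ_ne_zero _)]
      constructor
      · rw [Nat.succ_sub_one]
        exact lt_of_le_of_ne (Nat.floor_le hv.2.1.le) fun h => htn p _ h.symm
      · push_cast
        exact (Nat.lt_floor_add_one v).le
    rw [h3, Nat.add_sub_cancel]
  refine ⟨P + P1, fun p q hp hpp hqp hpq hfp hfq => ?_⟩
  exact hP1 p q (by omega) hpp hqp hpq
    (by
      show (roughPart p (NN (ysh α g p t))).Prime
      rw [e p (by omega)]
      exact hfp)
    (by
      show (roughPart q (NN (ysh α g q t))).Prime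
      rw [e q (by omega)]
      exact hfq)

/-- quadratic units of norm `-1` -/
theorem sparse_unit {α α' : ℝ} {P : ℤ} (hα : 1 < α) (hs : α + α' = P) (hm : α * α' = -1) (B : ℝ) :
    ∀ᵐ β : ℝ, 0 < β → Sparse (fun p => ⌊β * α ^ p + B * α' ^ p⌋₊) := by
  have hg : ∀ p : ℕ, |(fun p : ℕ => B * α' ^ p) p| ≤ |B| * (1 : ℝ) ^ p := by
    intro p
    simp only
    rw [one_pow, abs_mul, abs_pow]
    exact mul_le_mul_of_nonneg_left
      (pow_le_one₀ (abs_nonneg _) (Pool.Agent.H19P.conj_abs hα hm).le) (abs_nonneg _)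
  exact sparse_floor hα zero_le_one hα hg le_rfl hα
    (fun h a b hh ha hb => Pool.Agent.H19P.dio_unit hα hs hm h a b hh ha hb)

end Pool.Agent.V60.Gap
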