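import Mathlib
import Pool.Agent.V60.Gap.Irr
import Pool.Agent.V60.Gap.Floor

set_option autoImplicit false

/-!
# Sets of pairs of exponents, for a base without multiplicative coincidences
-/

namespace Pool.Agent.V60.Gap

open Finset MeasureTheory Filter Topology
open Pool.Agent.W66X (ysh measurable_ysh pert8 exp_ysh ae_of_exp')
open Pool.Agent.H305R2 (roughPart NN ff measurable_NN measurable_ff ff_nonneg ff_le_one)
open Pool.Agent.TH888.R (ae_windows)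

theorem ae_set_irr {α κ C A : ℝ} (hα : 1 < α) (hκ0 : 0 ≤ κ) (hκ : κ < α) {g : ℕ → ℝ}
    (hg : ∀ p, |g p| ≤ C * κ ^ p) (hA : 1 ≤ A) (hAα : A < α)
    (hdio : ∀ h a b : ℕ, 1 ≤ h → 1 ≤ a → 1 ≤ b → 1 ≤ |(a : ℝ) - b * α ^ h| * (A ^ h * (a + b)))
    (D : Set (ℕ × ℕ)) (hD : ∀ z ∈ D, z.1 < z.2 ∧ z.2 ≤ 2 * z.1)
    (hs : Summable (fun z : D => (Real.log z.1.1 / z.1.1) ^ 2)) :
    ∀ᵐ t : ℝ, {z | z ∈ D ∧ (roughPart z.1 (NN (ysh α g z.1 t))).Prime ∧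
      (roughPart z.2 (NN (ysh α g z.2 t))).Prime}.Finite := by
  refine ae_windows fun b0 => ?_
  obtain ⟨K1, hK1, P1, h1⟩ := near_irr2 hα hκ0 hκ hg hA hAα hdio b0
  have hmy : ∀ m : ℕ, Measurable (fun t => ff m (ysh α g m t)) := fun m =>
    (measurable_ff m).comp (measurable_ysh _ _ _)
  have hA := bc (μ := volume.restrict (Set.Ioc b0 (b0 + 1))) {z | z ∈ D ∧ P1 ≤ z.1}
    (fun z t => ff z.1 (ysh α g z.1 t) * ff z.2 (ysh α g z.2 t))
    (fun z => (hmy z.1).mul (hmy z.2))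
    (fun z t => mul_nonneg (ff_nonneg _ _) (ff_nonneg _ _))
    (fun z t => mul_le_one₀ (ff_le_one _ _) (ff_nonneg _ _) (ff_le_one _ _))
    (fun z => (Real.log z.1 / z.1) ^ 2) (K := K1) (C := ∑' z : D, (Real.log z.1.1 / z.1.1) ^ 2) hK1.le
    (by
      intro z hz
      exact h1 z.1 hz.2 z.2 (hD z hz.1).1 (hD z hz.1).2)
    (by
      classical
      intro T hT
      have h2 : ∑ z ∈ T, (Real.log z.1 / z.1) ^ 2 =
          ∑ z ∈ T.attach.image (fun z => (⟨z.1, (hT z.1 z.2).1⟩ : D)), (Real.log z.1.1 / z.1.1) ^ 2 := by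
        rw [Finset.sum_image]
        · exact (Finset.sum_attach T (fun z => (Real.log z.1 / z.1) ^ 2)).symm
        · intro x _ y _ hxy
          have := congrArg Subtype.val hxy
          exact Subtype.ext this
      rw [h2]
      exact hs.sum_le_tsum _ fun z _ => sq_nonneg _)
  filter_upwards [hA] with t htA
  refine (htA.union (finite_small D hD P1)).subset ?_
  rintro z ⟨hz, h3, h4⟩
  rcases lt_or_ge z.1 P1 with h6 | h6
  · exact Or.inr ⟨hz, h6⟩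
  · refine Or.inl ⟨⟨hz, h6⟩, ?_⟩
    rw [ff_one h3, ff_one h4, one_mul]

/-- the integers `⌊β α ^ p + g p⌋` -/
theorem set_irr_floor {α κ C A : ℝ} (hα : 1 < α) (hκ0 : 0 ≤ κ) (hκ : κ < α) {g : ℕ → ℝ}
    (hg : ∀ p, |g p| ≤ C * κ ^ p) (hA : 1 ≤ A) (hAα : A < α)
    (hdio : ∀ h a b : ℕ, 1 ≤ h → 1 ≤ a → 1 ≤ b → 1 ≤ |(a : ℝ) - b * α ^ h| * (A ^ h * (a + b)))
    (D : Set (ℕ × ℕ)) (hD : ∀ z ∈ D, z.1 < z.2 ∧ z.2 ≤ 2 * z.1)
    (hs : Summable (fun z : D => (Real.log z.1.1 / z.1.1) ^ 2)) :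
    ∀ᵐ β : ℝ, 0 < β → {z | z ∈ D ∧ (roughPart z.1 ⌊β * α ^ z.1 + g z.1⌋₊).Prime ∧
      (roughPart z.2 ⌊β * α ^ z.2 + g z.2⌋₊).Prime}.Finite := by
  have hb0 : (0 : ℝ) < α := by linarith
  have key := ae_of_exp' (P := fun β : ℝ => {z | z ∈ D ∧
      (roughPart z.1 (⌈β * α ^ z.1 + g z.1⌉₊ - 1)).Prime ∧
      (roughPart z.2 (⌈β * α ^ z.2 + g z.2⌉₊ - 1)).Prime}.Finite) (by
    filter_upwards [ae_set_irr hα hκ0 hκ hg hA hAα hdio D hD hs] with t ht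
    obtain ⟨P, hP⟩ := eventually_atTop.1 (pert8 hb0 hκ0 hκ hg t 8)
    have e : ∀ p, P ≤ p → NN (ysh α g p t) = ⌈Real.exp t * α ^ p + g p⌉₊ - 1 := by
      intro p hp
      unfold NN
      rw [(exp_ysh hb0 (hP p hp) le_rfl).1]
    refine (ht.union (finite_small D hD P)).subset ?_
    rintro z ⟨hz, h3, h4⟩
    rcases lt_or_ge z.1 P with h6 | h6
    · exact Or.inr ⟨hz, h6⟩
    · have h7 := (hD z hz).1
      refine Or.inl ⟨hz, ?_⟩
      rw [e z.1 h6, e z.2 (by omega)]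
      exact ⟨h3, h4⟩)
  filter_upwards [key, ae_not_int hb0 g] with β h hn hβ
  have hpos : ∃ P : ℕ, ∀ p ≥ P, 0 < β * α ^ p + g p := by
    obtain ⟨P, hP⟩ := eventually_atTop.1 (pert8 hb0 hκ0 hκ hg (Real.log β) 8)
    refine ⟨P, fun p hp => ?_⟩
    have := (exp_ysh hb0 (hP p hp) le_rfl).2.1
    rw [Real.exp_log hβ] at this
    exact this
  obtain ⟨P, hP⟩ := hpos
  have e : ∀ p, P ≤ p → ⌈β * α ^ p + g p⌉₊ - 1 = ⌊β * α ^ p + g p⌋₊ := by
    intro p hp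
    set v := β * α ^ p + g p with hvd
    have h3 : ⌈v⌉₊ = ⌊v⌋₊ + 1 := by
      rw [Nat.ceil_eq_iff (Nat.succ_ne_zero _)]
      constructor
      · rw [Nat.succ_sub_one]
        exact lt_of_le_of_ne (Nat.floor_le (hP p hp).le) fun h => hn p _ h.symm
      · push_cast
        exact (Nat.lt_floor_add_one v).le
    rw [h3, Nat.add_sub_cancel]
  refine ((h hβ).union (finite_small D hD P)).subset ?_
  rintro z ⟨hz, h3, h4⟩
  rcases lt_or_ge z.1 P with h6 | h6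
  · exact Or.inr ⟨hz, h6⟩
  · have h7 := (hD z hz).1
    refine Or.inl ⟨hz, ?_⟩
    rw [e z.1 h6, e z.2 (by omega)]
    exact ⟨h3, h4⟩

/-- quadratic units of norm `-1` -/
theorem set_unit {α α' : ℝ} {P : ℤ} (hα : 1 < α) (hs : α + α' = P) (hm : α * α' = -1) (B : ℝ)
    (D : Set (ℕ × ℕ)) (hD : ∀ z ∈ D, z.1 < z.2 ∧ z.2 ≤ 2 * z.1)
    (hsum : Summable (fun z : D => (Real.log z.1.1 / z.1.1) ^ 2)) :
    ∀ᵐ β : ℝ, 0 < β → {z | z ∈ D ∧ (roughPart z.1 ⌊β * α ^ z.1 + B * α' ^ z.1⌋₊).Prime ∧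
      (roughPart z.2 ⌊β * α ^ z.2 + B * α' ^ z.2⌋₊).Prime}.Finite := by
  have hg : ∀ p : ℕ, |(fun p : ℕ => B * α' ^ p) p| ≤ |B| * (1 : ℝ) ^ p := by
    intro p
    simp only
    rw [one_pow, abs_mul, abs_pow]
    exact mul_le_mul_of_nonneg_left
      (pow_le_one₀ (abs_nonneg _) (Pool.Agent.H19P.conj_abs hα hm).le) (abs_nonneg _)
  exact set_irr_floor hα zero_le_one hα hg le_rfl hα
    (fun h a b hh ha hb => Pool.Agent.H19P.dio_unit hα hs hm h a b hh ha hb) D hD hsum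

end Pool.Agent.V60.Gap
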