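import Mathlib
import Pool.Agent.W66.GE

set_option autoImplicit false

/-!
# Two shift families with the same base and an irrational ratio: the window

`Pool.Agent.W66.GD` (`near_window`) for two different families with values `y` and
`ρ α ^ h y + …`, where the ratios `ρ α ^ h` are badly approximable with a uniform constant.
-/

namespace Pool.Agent.V60.Gap

open Finset MeasureTheory Filter Topology
open Pool.Agent.W66V
open Pool.Agent.W66 (no_mid_prime NN_bounds exp_small large_smooth_count)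
open Pool.Agent.W66X (ysh measurable_ysh pert8 exp_ysh exp_consts)
open Pool.Agent.H305R2 (roughPart NN ff measurable_NN measurable_ff ff_nonneg ff_le_one ZZ ZZ_nonneg
  ZZ_le_exp integral_ind integral_ind_le log_nat_tendsto)
open Pool.Agent.H447R2.ML (Sh sh_of)

open Classical in
/-- the sieve bound in one window -/
theorem jnear_window {α κ C K ρ : ℝ} (hα : 1 < α) (hκ0 : 0 ≤ κ) (hκ : κ < α) {g g2 : ℕ → ℝ}
    (hg : ∀ p, |g p| ≤ C * κ ^ p) (hg2 : ∀ p, |g2 p| ≤ C * κ ^ p) (hK : 1 ≤ K) (hρ : 0 < ρ)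
    (hdio : ∀ h a b : ℕ, 1 ≤ a → 1 ≤ b → 1 ≤ |(a : ℝ) - b * (ρ * α ^ h)| * (K * (a + b)))
    (b0 : ℝ) : ∃ K' : ℝ, 0 < K' ∧ ∀ᶠ p : ℕ in atTop, ∀ h : ℕ, h ≤ p → 1 ≤ ρ * α ^ h → ∀ Y : ℝ,
      Real.log α * p + (b0 - 1 / 2) ≤ Y →
      ∫ y in Set.Ioc Y (Y + 1), (if good α p y ∧ good α (p + h)
        (Real.log (ρ * α ^ h * Real.exp y + (g2 (p + h) - ρ * α ^ h * g p))) then (1 : ℝ) else 0) ≤
        K' * (Real.log p / p) ^ 2 := by
  have hα0 : 0 < α := by linarith
  set L := Real.log α with hL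
  have hLpos : 0 < L := Real.log_pos hα
  obtain ⟨C1, hC1, hrat⟩ := ratio_primorial
  obtain ⟨P1, hP1⟩ := eventually_atTop.1 hrat
  have hpert := pert8 hα0 hκ0 hκ hg (b0 - 1) 8
  obtain ⟨P2, hP2⟩ := eventually_atTop.1 hpert
  have hpert3 := pert8 hα0 hκ0 hκ hg2 (b0 - 1 + Real.log ρ) 8
  obtain ⟨P3, hP3⟩ := eventually_atTop.1 hpert3
  have hsm := exp_small (c := 17 * L / 64) (by positivity)
  have hlarge : ∀ᶠ p : ℕ in atTop, (|b0| + |Real.log ρ| + 4) * 64 / (47 * L) < p :=
    tendsto_natCast_atTop_atTop.eventually_gt_atTop _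
  set a := (Z32 + 2) ^ 2 * Real.exp (-(b0 - 1 / 2) / 2) with ha
  have hZ0 := Z32_nonneg
  have ha0 : 0 < a := by positivity
  have hK0 : 0 < K := by linarith
  refine ⟨4 * (256 * C1 / L) ^ 2 + Real.sqrt K * a, by positivity, ?_⟩
  filter_upwards [hsm, hlarge, eventually_ge_atTop P1, eventually_ge_atTop P2, eventually_ge_atTop P3,
    eventually_ge_atTop 2] with p hsmp hpl hpP1 hpP2 hpP3 hp2 h hhp hβ1 Y hY
  have hp2' : (2 : ℝ) ≤ p := by exact_mod_cast hp2
  have hp0 : (0 : ℝ) < p := by linarith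
  have hb0abs := neg_abs_le b0
  have hb0abs' := le_abs_self b0
  have hbn := abs_nonneg b0
  have hrabs := neg_abs_le (Real.log ρ)
  have hrn := abs_nonneg (Real.log ρ)
  rw [div_lt_iff₀ (by positivity)] at hpl
  set q := p + h with hq
  have hqr : (q : ℝ) = p + h := by rw [hq]; push_cast; rfl
  have hh0 : (0 : ℝ) ≤ h := Nat.cast_nonneg _
  obtain ⟨M, hM0, hMl, hMr⟩ := hP1 q (by omega)
  set β := ρ * α ^ h with hβ
  have hβ0 : 0 < β := by linarith
  have hβe : β = Real.exp (L * h + Real.log ρ) := by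
    rw [hβ, hL, Real.exp_add, Real.exp_log hρ, mul_comm (Real.log α) (h : ℝ), Real.exp_nat_mul,
      Real.exp_log hα0, mul_comm]
  set κ' := g2 q - β * g p with hκ'
  set E0 := Real.exp (L * p + (b0 - 1)) with hE0
  have hE0pos : 0 < E0 := Real.exp_pos _
  have hkb : |κ'| ≤ β * E0 / 4 := by
    have h1 := hP2 p hpP2
    have h2 := hP3 q (by omega)
    push_cast at h1 h2
    have h3 : Real.exp (L * q + (b0 - 1 + Real.log ρ)) = β * E0 := by
      rw [hβe, hE0, ← Real.exp_add, hqr]; ring_nf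
    have h2' : |g2 q| ≤ β * E0 / 8 := by
      rw [← h3]; linarith
    have h4 : β * |g p| ≤ β * (E0 / 8) := mul_le_mul_of_nonneg_left (by linarith) hβ0.le
    calc |κ'| ≤ |g2 q| + |β * g p| := abs_sub _ _
      _ = |g2 q| + β * |g p| := by rw [abs_mul, abs_of_pos hβ0]
      _ ≤ _ := by linarith
  have hEY : E0 ≤ Real.exp Y := Real.exp_le_exp.2 (by linarith)
  have hY0 : 0 ≤ Y := by
    have : (|b0| + |Real.log ρ| + 4) * 64 < p * (47 * L) := hpl
    have h1 : 0 < L * p := by positivity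
    linarith
  have hX1 : 1 ≤ Real.exp Y := Real.one_le_exp hY0
  -- the sieve level
  set R := ⌊Real.exp (L * p / 64)⌋₊ with hR
  have hexp1 : 1 ≤ Real.exp (L * p / 64) := Real.one_le_exp (by positivity)
  have hR1 : 1 ≤ R := by rw [hR, Nat.one_le_floor_iff]; exact hexp1
  have hRle : (R : ℝ) ≤ Real.exp (L * p / 64) := Nat.floor_le (Real.exp_pos _).le
  have hRgt : Real.exp (L * p / 64) ≤ R + 1 := (Nat.lt_floor_add_one _).le
  set ε := (((R ^ 2 : ℕ) : ℝ) * (Z32 + 2)) ^ 2 *
      Real.sqrt (K * ((R ^ 2 : ℕ) : ℝ) ^ 3 / Real.exp Y) with hε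
  have hε0 : 0 ≤ ε := by positivity
  set f : ℝ → ℝ := fun y => if good α p y ∧ good α q (Real.log (β * Real.exp y + κ')) then (1 : ℝ) else 0 with hf
  have hmeas : Measurable f := by
    refine Measurable.ite ?_ measurable_const measurable_const
    refine (measurableSet_good α p).inter ?_
    have h1 : Measurable (fun y : ℝ => Real.log (β * Real.exp y + κ')) :=
      Real.measurable_log.comp ((Real.measurable_exp.const_mul _).add_const _)
    exact h1 (measurableSet_good α q)
  obtain ⟨J, hJ0, hJ1, hJ2⟩ := joint_sift_log (R := R) (M := M) hR1 hM0 (ε := ε) (Y := Y) hε0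
    (ψ := fun x => β * x + κ') (by fun_prop)
    (fun D E hD hD2 hE hE2 => corr_lin (Q := R ^ 2) (A := K) (β := β) (κ := κ') (X := Real.exp Y)
      (Nat.one_le_pow _ _ hR1) hK hβ1 hX1 (fun a b ha hb => hdio h a b ha hb) hD hD2 hE hE2)
    (f := f)
    (by
      refine Measure.integrableOn_of_bounded (M := 1) (by simp) hmeas.aestronglyMeasurable ?_
      refine Eventually.of_forall fun y => ?_
      simp only [hf]
      split_ifs <;> simp)
    (fun y _ => by simp only [hf]; split_ifs <;> norm_num)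
    (by
      intro y hy hfy
      have hgd : good α p y ∧ good α q (Real.log (β * Real.exp y + κ')) := by
        by_contra hc
        simp only [hf] at hfy
        rw [if_neg hc] at hfy
        exact lt_irrefl _ hfy
      obtain ⟨⟨g1, g2⟩, g3, g4⟩ := hgd
      have hyY : Real.exp Y < Real.exp y := Real.exp_lt_exp.2 hy.1
      have hpos : 3 / 4 * (β * Real.exp y) ≤ β * Real.exp y + κ' := by
        have h1 := (abs_le.1 hkb).1
        have h2 : β * E0 ≤ β * Real.exp y := mul_le_mul_of_nonneg_left (by linarith) hβ0.le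
        linarith
      have hψ0 : 0 < β * Real.exp y + κ' := by
        have := mul_pos hβ0 (Real.exp_pos y)
        linarith
      obtain ⟨n1, n2⟩ := NN_bounds y
      obtain ⟨n3, n4⟩ := NN_bounds (Real.log (β * Real.exp y + κ'))
      rw [Real.exp_log hψ0] at n3 n4
      refine ⟨NN y, NN (Real.log (β * Real.exp y + κ')), n1, n2, n3, n4, fun l hl hlR hlM => ?_⟩
      have hql := hMl l hl hlM
      have hlz : (l : ℝ) ≤ Real.exp (L * p / 64) := by
        have : (l : ℝ) ≤ R := by exact_mod_cast hlR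
        linarith
      constructor
      · refine no_mid_prime g1 g2 ?_ hl (by omega) hlz
        rw [← Real.exp_add]
        have h1 := size_exp (u := L * p / 64 + L * p / 4) (v := Y) (by positivity) (by linarith)
        linarith [Real.exp_pos Y]
      · refine no_mid_prime g3 g4 ?_ hl hql hlz
        rw [← Real.exp_add]
        have h1 := size_exp (u := L * p / 64 + L * q / 4) (v := L * h + Real.log ρ + Y) (by positivity) (by
          rw [hqr]
          have : 0 ≤ L * h := by positivity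
          linarith)
        rw [Real.exp_add (L * h + Real.log ρ) Y, ← hβe] at h1
        have h2 : β * Real.exp Y ≤ β * Real.exp y := mul_le_mul_of_nonneg_left hyY.le hβ0.le
        linarith)
  refine hJ2.trans ?_
  have hm := main_bound hJ0 hC1 hLpos hp2 (show q ≤ 2 * p by omega) (by omega) hRgt hMr hJ1
  have he := err_bound (R := R) (Z := Z32) (δ := L) (L := L) (a := a) (c := b0 - 1 / 2) (Y := Y) (A := 1)
    (p := p) (h := h) le_rfl (by simp) hRle hhp (by linarith) hZ0 ha
  have he1 : (R : ℝ) ^ 8 * ε = Real.sqrt K * ((R : ℝ) ^ 8 * ((((R ^ 2 : ℕ) : ℝ) * (Z32 + 2)) ^ 2 *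
      Real.sqrt (1 ^ h * ((R ^ 2 : ℕ) : ℝ) ^ 3 / Real.exp Y))) := by
    rw [hε, one_pow, mul_div_assoc, Real.sqrt_mul hK0.le, one_mul]
    ring
  have he2 : (R : ℝ) ^ 8 * ε ≤ Real.sqrt K * (a * (Real.log p / p) ^ 2) := by
    rw [he1]
    exact mul_le_mul_of_nonneg_left (he.trans (mul_le_mul_of_nonneg_left hsmp ha0.le))
      (Real.sqrt_nonneg K)
  calc 4 / J ^ 2 + (R : ℝ) ^ 8 * ε ≤ 4 * (256 * C1 / L) ^ 2 * (Real.log p / p) ^ 2 +
        Real.sqrt K * (a * (Real.log p / p) ^ 2) := add_le_add hm he2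
    _ = _ := by ring

end Pool.Agent.V60.Gap
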