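import Mathlib
import Pool.Agent.V60.Gap.JWin
import Pool.Agent.V60.Gap.IrrSet

set_option autoImplicit false

/-!
# Two shift families with the same base and an irrational ratio: pairs of exponents
-/

namespace Pool.Agent.V60.Gap

open Finset MeasureTheory Filter Topology
open Pool.Agent.W66V
open Pool.Agent.W66 (no_mid_prime NN_bounds exp_small large_smooth_count)
open Pool.Agent.W66X (ysh measurable_ysh pert8 exp_ysh exp_consts ae_of_exp')
open Pool.Agent.H305R2 (roughPart NN ff measurable_NN measurable_ff ff_nonneg ff_le_one ZZ ZZ_nonneg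
  ZZ_le_exp integral_ind integral_ind_le log_nat_tendsto)
open Pool.Agent.H447R2.ML (Sh sh_of)
open Pool.Agent.TH888.R (ae_windows)

/-- **Pairs of exponents of two families.** -/
theorem jnear {α κ C K0 ρ : ℝ} (hα : 1 < α) (hκ0 : 0 ≤ κ) (hκ : κ < α) {g g2 : ℕ → ℝ}
    (hg : ∀ p, |g p| ≤ C * κ ^ p) (hg2 : ∀ p, |g2 p| ≤ C * κ ^ p) (hK0 : 1 ≤ K0) (hρ : 0 < ρ)
    (hdio : ∀ h a b : ℕ, 1 ≤ a → 1 ≤ b → 1 ≤ |(a : ℝ) - b * (ρ * α ^ h)| * (K0 * (a + b)))
    (b0 : ℝ) : ∃ K : ℝ, 0 < K ∧ ∃ P : ℕ, ∀ p ≥ P, ∀ q : ℕ, p ≤ q →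
    q ≤ 2 * p → 1 ≤ ρ * α ^ (q - p) →
    ∫ t in Set.Ioc b0 (b0 + 1), ff p (ysh α g p t) * ff q (ysh α g2 q (t + Real.log ρ)) ≤
      K * (Real.log p / p) ^ 2 := by
  classical
  have hα0 : 0 < α := by linarith
  set L := Real.log α with hL
  have hLpos : 0 < L := Real.log_pos hα
  set r := Real.log ρ with hr
  obtain ⟨K1, hK1, hW⟩ := jnear_window hα hκ0 hκ hg hg2 hK0 hρ hdio b0
  have hbig := large_part hα hκ0 hκ hg b0
  have hbig2 := large_part hα hκ0 hκ hg2 (b0 + r)
  have hsh := sh_of hα0 hκ0 hκ hg b0 (b0 + 1)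
  have hpert := pert8 hα0 hκ0 hκ hg b0 8
  have hpert2 := pert8 hα0 hκ0 hκ hg2 (b0 + r) 8
  have hsm := exp_small (c := 3 * L / 32) (by positivity)
  obtain ⟨P, hP⟩ := eventually_atTop.1 (hW.and (hbig.and (hbig2.and (hsh.and (hpert.and (hpert2.and (hsm.and
    (eventually_ge_atTop 3))))))))
  refine ⟨4 * K1 + 64, by positivity, P, fun p hp q hpq hq2 hβ1 => ?_⟩
  obtain ⟨hWp, hbp, _, hshp, hpp, _, hsmp, hp3⟩ := hP p hp
  obtain ⟨_, _, hbq, _, _, hqq, _, _⟩ := hP q (by omega)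
  obtain ⟨h, rfl⟩ : ∃ h, q = p + h := ⟨q - p, by omega⟩
  have hhp : h ≤ p := by omega
  rw [Nat.add_sub_cancel_left] at hβ1
  have hp3' : (3 : ℝ) ≤ p := by exact_mod_cast hp3
  have hp0 : (0 : ℝ) < p := by linarith
  set w := Real.log p / p with hw
  have hw0 : 0 ≤ w := div_nonneg (Real.log_natCast_nonneg p) hp0.le
  set G : ℝ → ℝ := fun y => if good α p y ∧ good α (p + h)
    (Real.log (ρ * α ^ h * Real.exp y + (g2 (p + h) - ρ * α ^ h * g p))) then (1 : ℝ) else 0 with hG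
  have hGm : Measurable G := by
    refine Measurable.ite ?_ measurable_const measurable_const
    refine (measurableSet_good α p).inter ?_
    have h1 : Measurable (fun y : ℝ =>
        Real.log (ρ * α ^ h * Real.exp y + (g2 (p + h) - ρ * α ^ h * g p))) :=
      Real.measurable_log.comp ((Real.measurable_exp.const_mul _).add_const _)
    exact h1 (measurableSet_good α (p + h))
  have hG0 : ∀ y, 0 ≤ G y := fun y => by simp only [hG]; split_ifs <;> norm_num
  have hG1 : ∀ y, G y ≤ 1 := fun y => by simp only [hG]; split_ifs <;> norm_num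
  set Bp : ℝ → ℝ := fun t => if bad α p (ysh α g p t) then (1 : ℝ) else 0 with hBp
  set Bq : ℝ → ℝ := fun t => if bad α (p + h) (ysh α g2 (p + h) (t + r)) then (1 : ℝ) else 0 with hBq
  have hBp0 : ∀ t, 0 ≤ Bp t := fun y => by simp only [hBp]; split_ifs <;> norm_num
  have hBq0 : ∀ t, 0 ≤ Bq t := fun y => by simp only [hBq]; split_ifs <;> norm_num
  -- the relation between the two phases
  have hrel : ∀ t ∈ Set.Ioc b0 (b0 + 1), ysh α g2 (p + h) (t + r) =
      Real.log (ρ * α ^ h * Real.exp (ysh α g p t) + (g2 (p + h) - ρ * α ^ h * g p)) := by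
    intro t ht
    rw [(exp_ysh hα0 hpp ht.1.le).1]
    unfold ysh
    congr 1
    rw [pow_add, Real.exp_add, hr, Real.exp_log hρ]
    ring
  have hpt : ∀ t ∈ Set.Ioc b0 (b0 + 1), ff p (ysh α g p t) * ff (p + h) (ysh α g2 (p + h) (t + r)) ≤
      Bp t + Bq t + G (ysh α g p t) := by
    intro t ht
    have e1 := hBp0 t
    have e2 := hBq0 t
    have e3 := hG0 (ysh α g p t)
    unfold ff
    by_cases h1 : (roughPart p (NN (ysh α g p t))).Prime
    · by_cases h2 : (roughPart (p + h) (NN (ysh α g2 (p + h) (t + r)))).Prime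
      · rw [if_pos h1, if_pos h2, mul_one]
        by_cases h3 : bad α p (ysh α g p t)
        · have : Bp t = 1 := by simp only [hBp]; rw [if_pos h3]
          linarith
        · by_cases h4 : bad α (p + h) (ysh α g2 (p + h) (t + r))
          · have : Bq t = 1 := by simp only [hBq]; rw [if_pos h4]
            linarith
          · have h5 : good α p (ysh α g p t) := ⟨h1, by
              by_contra hc
              exact h3 ⟨h1, not_lt.1 hc⟩⟩
            have h6 : good α (p + h) (ysh α g2 (p + h) (t + r)) := ⟨h2, by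
              by_contra hc
              exact h4 ⟨h2, not_lt.1 hc⟩⟩
            rw [hrel t ht] at h6
            have : G (ysh α g p t) = 1 := by simp only [hG]; rw [if_pos ⟨h5, h6⟩]
            linarith
      · rw [if_neg h2, mul_zero]; linarith
    · rw [if_neg h1, zero_mul]; linarith
  have hm1 : Measurable (fun t => ff p (ysh α g p t)) :=
    (measurable_ff p).comp (measurable_ysh _ _ _)
  have hm2 : Measurable (fun t => ff (p + h) (ysh α g2 (p + h) (t + r))) :=
    (measurable_ff (p + h)).comp ((measurable_ysh _ _ _).comp (measurable_id.add_const r))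
  have hint1 : IntegrableOn (fun t : ℝ => ff p (ysh α g p t) * ff (p + h) (ysh α g2 (p + h) (t + r)))
      (Set.Ioc b0 (b0 + 1)) := by
    refine Measure.integrableOn_of_bounded (M := 1) (by simp) (hm1.mul hm2).aestronglyMeasurable ?_
    refine Eventually.of_forall fun t => ?_
    have h1 := ff_nonneg p (ysh α g p t)
    have h2 := ff_nonneg (p + h) (ysh α g2 (p + h) (t + r))
    have h3 := ff_le_one p (ysh α g p t)
    have h4 := ff_le_one (p + h) (ysh α g2 (p + h) (t + r))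
    rw [Real.norm_eq_abs, abs_of_nonneg (mul_nonneg h1 h2)]
    exact mul_le_one₀ h3 h2 h4
  have hiB : ∀ (u : ℕ → ℝ) (m : ℕ) (c : ℝ), IntegrableOn (fun t : ℝ =>
      if bad α m (ysh α u m (t + c)) then (1 : ℝ) else 0) (Set.Ioc b0 (b0 + 1)) := by
    intro u m c
    refine Measure.integrableOn_of_bounded (M := 1) (by simp) ?_ ?_
    · exact (Measurable.ite (((measurable_ysh α u m).comp (measurable_id.add_const c))
        (measurableSet_bad α m)) measurable_const measurable_const).aestronglyMeasurable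
    · refine Eventually.of_forall fun t => ?_
      split_ifs <;> simp
  have hiBp : IntegrableOn Bp (Set.Ioc b0 (b0 + 1)) := by
    have := hiB g p 0
    simpa only [add_zero] using this
  have hiBq : IntegrableOn Bq (Set.Ioc b0 (b0 + 1)) := hiB g2 (p + h) r
  have hiG : IntegrableOn (fun t : ℝ => G (ysh α g p t)) (Set.Ioc b0 (b0 + 1)) := by
    refine Measure.integrableOn_of_bounded (M := 1) (by simp)
      (hGm.comp (measurable_ysh _ _ _)).aestronglyMeasurable ?_
    refine Eventually.of_forall fun t => ?_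
    rw [Real.norm_eq_abs, abs_of_nonneg (hG0 _)]
    exact hG1 _
  have hstep : ∫ t in Set.Ioc b0 (b0 + 1), ff p (ysh α g p t) * ff (p + h) (ysh α g2 (p + h) (t + r)) ≤
      (∫ t in Set.Ioc b0 (b0 + 1), Bp t) + (∫ t in Set.Ioc b0 (b0 + 1), Bq t) +
        ∫ t in Set.Ioc b0 (b0 + 1), G (ysh α g p t) := by
    have i1 : IntegrableOn (fun t => Bp t + Bq t) (Set.Ioc b0 (b0 + 1)) := hiBp.add hiBq
    rw [← integral_add hiBp hiBq, ← integral_add i1 hiG]
    exact setIntegral_mono_on hint1 (i1.add hiG) measurableSet_Ioc hpt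
  -- the main part
  set Y := L * p + (b0 - 1 / 2) with hY
  have hrange := sh_range hshp hp3
  have hw1 := hWp h hhp hβ1 Y le_rfl
  have hw2 := hWp h hhp hβ1 (Y + 1) (by linarith)
  have hcov := (Sh.cov hshp hp3 (s := b0) (t := b0 + 1) le_rfl (by linarith) le_rfl
      (F := G) hGm hG0 hG1).1
  have hGint : ∀ u v : ℝ, IntegrableOn G (Set.Ioc u v) := by
    intro u v
    refine Measure.integrableOn_of_bounded (M := 1) (by simp) hGm.aestronglyMeasurable ?_
    refine Eventually.of_forall fun t => ?_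
    rw [Real.norm_eq_abs, abs_of_nonneg (hG0 _)]
    exact hG1 _
  have hmain : ∫ u in Set.Ioc (ysh α g p b0) (ysh α g p (b0 + 1)), G u ≤ 2 * K1 * w ^ 2 := by
    have r1 := (hrange b0 ⟨le_rfl, by linarith⟩).1
    have r2 := (hrange (b0 + 1) ⟨by linarith, le_rfl⟩).2
    have r1' : Y < ysh α g p b0 := r1
    have r2' : ysh α g p (b0 + 1) ≤ Y + 2 := r2
    have hsub : Set.Ioc (ysh α g p b0) (ysh α g p (b0 + 1)) ⊆ Set.Ioc Y (Y + 1) ∪ Set.Ioc (Y + 1) (Y + 1 + 1) := by
      intro u hu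
      rcases le_or_gt u (Y + 1) with hc | hc
      · exact Or.inl ⟨by linarith [hu.1], hc⟩
      · exact Or.inr ⟨hc, by linarith [hu.2]⟩
    calc ∫ u in Set.Ioc (ysh α g p b0) (ysh α g p (b0 + 1)), G u ≤
          ∫ u in Set.Ioc Y (Y + 1) ∪ Set.Ioc (Y + 1) (Y + 1 + 1), G u := by
          refine setIntegral_mono_set ((hGint _ _).union (hGint _ _)) ?_ ?_
          · exact Eventually.of_forall hG0
          · exact (LE.le.eventuallyLE hsub)
      _ = (∫ u in Set.Ioc Y (Y + 1), G u) + ∫ u in Set.Ioc (Y + 1) (Y + 1 + 1), G u := by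
          refine setIntegral_union ?_ measurableSet_Ioc (hGint _ _) (hGint _ _)
          rw [Set.disjoint_left]
          intro u hu1 hu2
          exact absurd hu1.2 (not_le.2 hu2.1)
      _ ≤ K1 * w ^ 2 + K1 * w ^ 2 := add_le_add hw1 hw2
      _ = _ := by ring
  have hGnn : 0 ≤ ∫ t in Set.Ioc b0 (b0 + 1), G (ysh α g p t) := integral_nonneg fun t => hG0 _
  have h4 : 1 / (p : ℝ) ≤ 1 / 2 := one_div_le_one_div_of_le (by norm_num) (by linarith)
  have hmain2 : ∫ t in Set.Ioc b0 (b0 + 1), G (ysh α g p t) ≤ 4 * K1 * w ^ 2 := by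
    have h5 := mul_le_mul_of_nonneg_right (show 1 / 2 ≤ 1 - 1 / (p : ℝ) by linarith) hGnn
    have h6 : (1 - 1 / (p : ℝ)) * ∫ t in Set.Ioc b0 (b0 + 1), G (ysh α g p t) ≤ 2 * K1 * w ^ 2 :=
      le_trans hcov hmain
    linarith
  have hBpb : ∫ t in Set.Ioc b0 (b0 + 1), Bp t ≤ 32 * w ^ 2 := by
    refine hbp.trans ?_
    linarith
  have hBqb : ∫ t in Set.Ioc b0 (b0 + 1), Bq t ≤ 32 * w ^ 2 := by
    have htr : ∫ t in Set.Ioc b0 (b0 + 1), Bq t =
        ∫ t in Set.Ioc (b0 + r) (b0 + r + 1), (if bad α (p + h) (ysh α g2 (p + h) t) then (1 : ℝ) else 0) := by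
      rw [← intervalIntegral.integral_of_le (by linarith), ← intervalIntegral.integral_of_le (by linarith)]
      have := intervalIntegral.integral_comp_add_right (a := b0) (b := b0 + 1)
        (fun t => if bad α (p + h) (ysh α g2 (p + h) t) then (1 : ℝ) else 0) r
      rw [show b0 + 1 + r = b0 + r + 1 by ring] at this
      exact this
    rw [htr]
    refine hbq.trans ?_
    have h6 : Real.exp (-(3 * L / 32 * ((p + h : ℕ) : ℝ))) ≤ Real.exp (-(3 * L / 32 * p)) := by
      rw [Real.exp_le_exp]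
      push_cast
      have : 0 ≤ 3 * L / 32 * (h : ℝ) := by positivity
      linarith
    linarith
  have hw20 : 0 ≤ w ^ 2 := sq_nonneg _
  calc _ ≤ _ := hstep
    _ ≤ 32 * w ^ 2 + 32 * w ^ 2 + 4 * K1 * w ^ 2 := add_le_add (add_le_add hBpb hBqb) hmain2
    _ = (4 * K1 + 64) * w ^ 2 := by ring

/-- sets of pairs -/
theorem jset {α κ C K0 ρ : ℝ} (hα : 1 < α) (hκ0 : 0 ≤ κ) (hκ : κ < α) {g g2 : ℕ → ℝ}
    (hg : ∀ p, |g p| ≤ C * κ ^ p) (hg2 : ∀ p, |g2 p| ≤ C * κ ^ p) (hK0 : 1 ≤ K0) (hρ : 0 < ρ)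
    (hdio : ∀ h a b : ℕ, 1 ≤ a → 1 ≤ b → 1 ≤ |(a : ℝ) - b * (ρ * α ^ h)| * (K0 * (a + b)))
    (D : Set (ℕ × ℕ)) (hD : ∀ z ∈ D, z.1 ≤ z.2 ∧ z.2 ≤ 2 * z.1 ∧ 1 ≤ ρ * α ^ (z.2 - z.1))
    (hs : Summable (fun z : D => (Real.log z.1.1 / z.1.1) ^ 2)) :
    ∀ᵐ t : ℝ, {z | z ∈ D ∧ (roughPart z.1 (NN (ysh α g z.1 t))).Prime ∧
      (roughPart z.2 (NN (ysh α g2 z.2 (t + Real.log ρ)))).Prime}.Finite := by
  refine ae_windows fun b0 => ?_
  obtain ⟨K1, hK1, P1, h1⟩ := jnear hα hκ0 hκ hg hg2 hK0 hρ hdio b0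
  have hm1 : ∀ m : ℕ, Measurable (fun t => ff m (ysh α g m t)) := fun m =>
    (measurable_ff m).comp (measurable_ysh _ _ _)
  have hm2 : ∀ m : ℕ, Measurable (fun t => ff m (ysh α g2 m (t + Real.log ρ))) := fun m =>
    (measurable_ff m).comp ((measurable_ysh _ _ _).comp (measurable_id.add_const _))
  have hA := bc (μ := volume.restrict (Set.Ioc b0 (b0 + 1))) {z | z ∈ D ∧ P1 ≤ z.1}
    (fun z t => ff z.1 (ysh α g z.1 t) * ff z.2 (ysh α g2 z.2 (t + Real.log ρ)))
    (fun z => (hm1 z.1).mul (hm2 z.2))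
    (fun z t => mul_nonneg (ff_nonneg _ _) (ff_nonneg _ _))
    (fun z t => mul_le_one₀ (ff_le_one _ _) (ff_nonneg _ _) (ff_le_one _ _))
    (fun z => (Real.log z.1 / z.1) ^ 2) (K := K1) (C := ∑' z : D, (Real.log z.1.1 / z.1.1) ^ 2) hK1.le
    (by
      intro z hz
      exact h1 z.1 hz.2 z.2 (hD z hz.1).1 (hD z hz.1).2.1 (hD z hz.1).2.2)
    (by
      classical
      intro T hT
      have h2 : ∑ z ∈ T, (Real.log z.1 / z.1) ^ 2 =
          ∑ z ∈ T.attach.image (fun z => (⟨z.1, (hT z.1 z.2).1⟩ : D)), (Real.log z.1.1 / z.1.1) ^ 2 := by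
        rw [Finset.sum_image]
        · exact (Finset.sum_attach T (fun z => (Real.log z.1 / z.1) ^ 2)).symm
        · intro x _ y _ hxy
          have := congrArg Subtype.val hxy
          exact Subtype.ext this
      rw [h2]
      exact hs.sum_le_tsum _ fun z _ => sq_nonneg _)
  filter_upwards [hA] with t htA
  have hfin : {z | z ∈ D ∧ z.1 < P1}.Finite := by
    refine ((Set.finite_Iio P1).prod (Set.finite_Iio (2 * P1))).subset ?_
    rintro z ⟨hz, hzP⟩
    have := hD z hz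
    exact ⟨hzP, by simp only [Set.mem_Iio]; omega⟩
  refine (htA.union hfin).subset ?_
  rintro z ⟨hz, h3, h4⟩
  rcases lt_or_ge z.1 P1 with h6 | h6
  · exact Or.inr ⟨hz, h6⟩
  · refine Or.inl ⟨⟨hz, h6⟩, ?_⟩
    rw [ff_one h3, ff_one h4, one_mul]

end Pool.Agent.V60.Gap
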