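import Mathlib
import Pool.Agent.V60.Gap.JNear
import Pool.Agent.V60.Gap.JDio

set_option autoImplicit false

/-!
# Exponents of two real solutions of a recurrence avoid each other
-/

namespace Pool.Agent.V60.Gap

open Finset MeasureTheory Filter Topology
open Pool.Agent.W66X (ysh measurable_ysh pert8 exp_ysh exp_consts ae_of_exp')
open Pool.Agent.H305R2 (roughPart NN)

lemma ae_not_int' {b : ℝ} (hb0 : 0 < b) {ρ : ℝ} (hρ : 0 < ρ) (g : ℕ → ℝ) :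
    ∀ᵐ β : ℝ, ∀ p m : ℕ, ρ * β * b ^ p + g p ≠ m := by
  have hnull : volume (⋃ p : ℕ, ⋃ m : ℕ, {β : ℝ | ρ * β * b ^ p + g p = m}) = 0 := by
    refine Set.Countable.measure_zero ?_ volume
    refine Set.countable_iUnion fun p => Set.countable_iUnion fun m => ?_
    refine Set.Subsingleton.countable ?_
    intro s hs t ht
    simp only [Set.mem_ofPred_eq] at hs ht
    have h3 : ρ * s * b ^ p = ρ * t * b ^ p := by linarith
    exact mul_left_cancel₀ hρ.ne' (mul_right_cancel₀ (pow_pos hb0 p).ne' h3)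
  have hae : ∀ᵐ β : ℝ, β ∉ ⋃ p : ℕ, ⋃ m : ℕ, {β : ℝ | ρ * β * b ^ p + g p = m} := by
    rw [ae_iff]
    refine measure_mono_null (fun t ht => ?_) hnull
    simpa only [Set.mem_ofPred_eq, not_not] using ht
  filter_upwards [hae] with β hβ p m hm
  refine hβ ?_
  simp only [Set.mem_iUnion]
  exact ⟨p, m, hm⟩

lemma ceil_floor {v : ℝ} (hv : 0 < v) (hn : ∀ m : ℕ, v ≠ m) : ⌈v⌉₊ - 1 = ⌊v⌋₊ := by
  have h3 : ⌈v⌉₊ = ⌊v⌋₊ + 1 := by
    rw [Nat.ceil_eq_iff (Nat.succ_ne_zero _)]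
    constructor
    · rw [Nat.succ_sub_one]
      exact lt_of_le_of_ne (Nat.floor_le hv.le) fun h => hn _ h.symm
    · push_cast
      exact (Nat.lt_floor_add_one v).le
  rw [h3, Nat.add_sub_cancel]

/-- sets of pairs, the integers `⌊β α ^ p + g p⌋` and `⌊ρ β α ^ q + g2 q⌋` -/
theorem jset_floor {α κ C K0 ρ : ℝ} (hα : 1 < α) (hκ0 : 0 ≤ κ) (hκ : κ < α) {g g2 : ℕ → ℝ}
    (hg : ∀ p, |g p| ≤ C * κ ^ p) (hg2 : ∀ p, |g2 p| ≤ C * κ ^ p) (hK0 : 1 ≤ K0) (hρ : 0 < ρ)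
    (hdio : ∀ h a b : ℕ, 1 ≤ a → 1 ≤ b → 1 ≤ |(a : ℝ) - b * (ρ * α ^ h)| * (K0 * (a + b)))
    (D : Set (ℕ × ℕ)) (hD : ∀ z ∈ D, z.1 ≤ z.2 ∧ z.2 ≤ 2 * z.1 ∧ 1 ≤ ρ * α ^ (z.2 - z.1))
    (hs : Summable (fun z : D => (Real.log z.1.1 / z.1.1) ^ 2)) :
    ∀ᵐ β : ℝ, 0 < β → {z | z ∈ D ∧ (roughPart z.1 ⌊β * α ^ z.1 + g z.1⌋₊).Prime ∧
      (roughPart z.2 ⌊ρ * β * α ^ z.2 + g2 z.2⌋₊).Prime}.Finite := by
  have hb0 : (0 : ℝ) < α := by linarith
  have key := ae_of_exp' (P := fun β : ℝ => (∀ p m : ℕ, 1 * β * α ^ p + g p ≠ m) →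
      (∀ p m : ℕ, ρ * β * α ^ p + g2 p ≠ m) → {z | z ∈ D ∧
      (roughPart z.1 ⌊β * α ^ z.1 + g z.1⌋₊).Prime ∧
      (roughPart z.2 ⌊ρ * β * α ^ z.2 + g2 z.2⌋₊).Prime}.Finite) (by
    filter_upwards [jset hα hκ0 hκ hg hg2 hK0 hρ hdio D hD hs] with t ht n1 n2
    obtain ⟨P, hP⟩ := eventually_atTop.1 (pert8 hb0 hκ0 hκ hg t 8)
    obtain ⟨P2, hP2⟩ := eventually_atTop.1 (pert8 hb0 hκ0 hκ hg2 (t + Real.log ρ) 8)
    have e : ∀ p, P ≤ p → NN (ysh α g p t) = ⌊Real.exp t * α ^ p + g p⌋₊ := by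
      intro p hp
      unfold NN
      have h := exp_ysh hb0 (hP p hp) le_rfl
      rw [h.1]
      exact ceil_floor h.2.1 fun m => by
        have := n1 p m
        rwa [one_mul] at this
    have e2 : ∀ p, P2 ≤ p → NN (ysh α g2 p (t + Real.log ρ)) = ⌊ρ * Real.exp t * α ^ p + g2 p⌋₊ := by
      intro p hp
      unfold NN
      have h := exp_ysh hb0 (hP2 p hp) le_rfl
      have h3 : Real.exp (t + Real.log ρ) = ρ * Real.exp t := by
        rw [Real.exp_add, Real.exp_log hρ, mul_comm]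
      rw [h3] at h
      rw [h.1]
      exact ceil_floor h.2.1 (n2 p)
    have hfin : {z | z ∈ D ∧ z.1 < P + P2}.Finite := by
      refine ((Set.finite_Iio (P + P2)).prod (Set.finite_Iio (2 * (P + P2)))).subset ?_
      rintro z ⟨hz, hzP⟩
      have := hD z hz
      exact ⟨hzP, by simp only [Set.mem_Iio]; omega⟩
    refine (ht.union hfin).subset ?_
    rintro z ⟨hz, h3, h4⟩
    rcases lt_or_ge z.1 (P + P2) with h6 | h6
    · exact Or.inr ⟨hz, h6⟩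
    · have h7 := (hD z hz).1
      refine Or.inl ⟨hz, ?_⟩
      rw [e z.1 (by omega), e2 z.2 (by omega)]
      exact ⟨h3, h4⟩)
  filter_upwards [key, ae_not_int' hb0 one_pos g, ae_not_int' hb0 hρ g2] with β h n1 n2 hβ
  exact h hβ n1 n2

lemma sum_diag_sq : Summable (fun p : ℕ => (Real.log p / p) ^ 2) := by
  have h1 : Summable (fun p : ℕ => 16 * (1 / (p : ℝ) ^ (3 / 2 : ℝ))) :=
    (Real.summable_one_div_nat_rpow.2 (by norm_num)).mul_left 16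
  refine Summable.of_nonneg_of_le (fun p => sq_nonneg _) (fun p => ?_) h1
  rcases Nat.eq_zero_or_pos p with rfl | hp
  · simp
  have hp0 : (0 : ℝ) < p := by exact_mod_cast hp
  have h2 : Real.log p ≤ (p : ℝ) ^ (1 / 4 : ℝ) / (1 / 4) := Real.log_le_rpow_div hp0.le (by norm_num)
  have h3 : 0 ≤ Real.log p := Real.log_natCast_nonneg p
  have h4 : Real.log p ^ 2 ≤ 16 * (p : ℝ) ^ (1 / 2 : ℝ) := by
    have h5 : Real.log p ^ 2 ≤ ((p : ℝ) ^ (1 / 4 : ℝ) / (1 / 4)) ^ 2 := pow_le_pow_left₀ h3 h2 2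
    have h6 : ((p : ℝ) ^ (1 / 4 : ℝ)) ^ 2 = (p : ℝ) ^ (1 / 2 : ℝ) := by
      rw [← Real.rpow_natCast, ← Real.rpow_mul hp0.le]
      norm_num
    calc Real.log p ^ 2 ≤ _ := h5
      _ = 16 * ((p : ℝ) ^ (1 / 4 : ℝ)) ^ 2 := by ring
      _ = _ := by rw [h6]
  have h7 : (p : ℝ) ^ 2 = (p : ℝ) ^ (3 / 2 : ℝ) * (p : ℝ) ^ (1 / 2 : ℝ) := by
    rw [← Real.rpow_add hp0, ← Real.rpow_natCast]
    norm_num
  have h8 : 0 < (p : ℝ) ^ (1 / 2 : ℝ) := Real.rpow_pos_of_pos hp0 _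
  have h9 : 0 < (p : ℝ) ^ (3 / 2 : ℝ) := Real.rpow_pos_of_pos hp0 _
  rw [div_pow, h7, mul_one_div, div_le_div_iff₀ (by positivity) h9]
  nlinarith

/-- the close pairs, the diagonal included -/
def CloseSet (ε : ℝ) (P : ℕ) : Set (ℕ × ℕ) := {z : ℕ × ℕ | P ≤ z.1 ∧
    z.1.Prime ∧ z.2.Prime ∧ z.1 ≤ z.2 ∧ (z.1 < z.2 → Close ε z.1 z.2)}

/-- the sum over close pairs, the diagonal included -/
lemma summable_close {ε : ℝ} (hε : 0 < ε) : ∃ P : ℕ, Summable (fun z : CloseSet ε P =>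
      (Real.log z.1.1 / z.1.1) ^ 2) := by
  classical
  obtain ⟨C, hC, P, hP⟩ := sum_close hε
  refine ⟨P, summable_of_sum_le (c := C + ∑' p : ℕ, (Real.log p / p) ^ 2) (fun z => sq_nonneg _) fun T => ?_⟩
  have h1 : ∑ z ∈ T, (Real.log z.1.1 / z.1.1) ^ 2 = ∑ z ∈ T.image Subtype.val, (Real.log z.1 / z.1) ^ 2 := by
    rw [Finset.sum_image]
    intro x _ y _ hxy
    exact Subtype.ext hxy
  rw [h1, ← Finset.sum_filter_add_sum_filter_not (T.image Subtype.val) (fun z => z.1 < z.2)]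
  refine add_le_add ?_ ?_
  · refine hP _ fun z hz => ?_
    rw [Finset.mem_filter, Finset.mem_image] at hz
    obtain ⟨⟨x, _, rfl⟩, hlt⟩ := hz
    exact ⟨x.2.1, x.2.2.1, x.2.2.2.1, hlt, x.2.2.2.2.2 hlt⟩
  · have h2 : ∀ z ∈ (T.image Subtype.val).filter (fun z => ¬ z.1 < z.2), z.2 = z.1 := by
      intro z hz
      rw [Finset.mem_filter, Finset.mem_image] at hz
      obtain ⟨⟨x, _, rfl⟩, hlt⟩ := hz
      have := x.2.2.2.2.1
      omega
    have h3 : ∑ z ∈ (T.image Subtype.val).filter (fun z => ¬ z.1 < z.2), (Real.log z.1 / z.1) ^ 2 =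
        ∑ p ∈ ((T.image Subtype.val).filter (fun z => ¬ z.1 < z.2)).image Prod.fst,
          (Real.log p / p) ^ 2 := by
      rw [Finset.sum_image]
      intro x hx y hy hxy
      exact Prod.ext hxy (by rw [h2 x hx, h2 y hy, hxy])
    rw [h3]
    exact sum_diag_sq.sum_le_tsum _ fun p _ => sq_nonneg _

lemma summable_sub {D D' : Set (ℕ × ℕ)} (h : D ⊆ D') (f : ℕ × ℕ → ℝ)
    (hs : Summable (fun z : D' => f z.1)) : Summable (fun z : D => f z.1) :=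
  hs.comp_injective (Set.inclusion_injective h)

/-- one direction: the smaller index in the first family -/
theorem jclose {α κ C K0 ρ : ℝ} (hα : 1 < α) (hκ0 : 0 ≤ κ) (hκ : κ < α) {g g2 : ℕ → ℝ}
    (hg : ∀ p, |g p| ≤ C * κ ^ p) (hg2 : ∀ p, |g2 p| ≤ C * κ ^ p) (hK0 : 1 ≤ K0) (hρ : 0 < ρ)
    (hdio : ∀ h a b : ℕ, 1 ≤ a → 1 ≤ b → 1 ≤ |(a : ℝ) - b * (ρ * α ^ h)| * (K0 * (a + b))) :
    ∀ᵐ β : ℝ, 0 < β → ∀ ε : ℝ, 0 < ε → ∃ P : ℕ, ∀ p q : ℕ, P ≤ p → p.Prime → q.Prime → p ≤ q →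
      1 ≤ ρ * α ^ (q - p) → (p < q → (q : ℝ) - p < p / Real.log p ^ (1 + ε)) →
      (roughPart p ⌊β * α ^ p + g p⌋₊).Prime → (roughPart q ⌊ρ * β * α ^ q + g2 q⌋₊).Prime → False := by
  have h1 : ∀ n : ℕ, ∀ᵐ β : ℝ, 0 < β → ∃ P : ℕ, ∀ p q : ℕ, P ≤ p → p.Prime → q.Prime → p ≤ q →
      1 ≤ ρ * α ^ (q - p) → (p < q → Close (1 / ((n : ℝ) + 1)) p q) →
      (roughPart p ⌊β * α ^ p + g p⌋₊).Prime → (roughPart q ⌊ρ * β * α ^ q + g2 q⌋₊).Prime →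
      False := by
    intro n
    have hε : 0 < 1 / ((n : ℝ) + 1) := by positivity
    obtain ⟨P, hP⟩ := summable_close hε
    obtain ⟨P5, h5⟩ := eventually_atTop.1 (ev_log (c := 1))
    generalize hη : 1 / ((n : ℝ) + 1) = η at hε hP ⊢
    let D : Set (ℕ × ℕ) := {z | z ∈ CloseSet η P ∧ P5 ≤ z.1 ∧ 1 ≤ ρ * α ^ (z.2 - z.1)}
    have hsum : Summable (fun z : D => (Real.log z.1.1 / z.1.1) ^ 2) := by
      have hsub : D ⊆ CloseSet η P := fun z hz => hz.1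
      exact summable_sub hsub (fun z => (Real.log z.1 / z.1) ^ 2) hP
    have key := jset_floor hα hκ0 hκ hg hg2 hK0 hρ hdio D (by
      rintro z ⟨hz, h2, h3⟩
      refine ⟨hz.2.2.2.1, ?_, h3⟩
      rcases Nat.lt_or_ge z.1 z.2 with h4 | h4
      · exact two_of_close hε (h5 _ h2) (hz.2.2.2.2 h4)
      · omega) hsum
    filter_upwards [key] with β h hβ
    obtain ⟨Q, hQ⟩ := ((h hβ).image Prod.fst).bddAbove
    refine ⟨P + P5 + Q + 1, fun p q hp hpp hqp hpq hr hcl h6 h7 => ?_⟩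
    have h8 : p ∈ Prod.fst '' {z | z ∈ D ∧ (roughPart z.1 ⌊β * α ^ z.1 + g z.1⌋₊).Prime ∧
        (roughPart z.2 ⌊ρ * β * α ^ z.2 + g2 z.2⌋₊).Prime} :=
      ⟨(p, q), ⟨⟨⟨by simp only; omega, hpp, hqp, hpq, hcl⟩, by simp only; omega, hr⟩, h6, h7⟩, rfl⟩
    have := hQ h8
    omega
  filter_upwards [ae_all_iff.2 h1] with β h hβ ε hε
  obtain ⟨n, hn⟩ := exists_nat_one_div_lt hε
  obtain ⟨P, hP⟩ := h n hβ
  obtain ⟨P5, h5⟩ := eventually_atTop.1 (ev_log (c := 1))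
  refine ⟨P + P5, fun p q hp hpp hqp hpq hr hcl h6 h7 => ?_⟩
  exact hP p q (by omega) hpp hqp hpq hr
    (fun hlt => close_mono hn.le (h5 p (by omega)) (hcl hlt)) h6 h7

/-- **The exponents of two real solutions of the recurrence `x (n + 2) = P x (n + 1) + x n` whose
amplitudes have a ratio `(s / t) √(P ^ 2 + 4)` avoid each other.** -/
theorem avoid_unit {α α' : ℝ} {P : ℤ} (hα : 1 < α) (hs : α + α' = P) (hm : α * α' = -1) {s t : ℕ}
    (hs1 : 1 ≤ s) (ht1 : 1 ≤ t) {ρ : ℝ} (hρ : ρ = s / t * (α - α')) (hρ1 : 1 ≤ ρ) (hρ2 : ρ ≤ α ^ 2)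
    (B B' : ℝ) :
    ∀ᵐ β : ℝ, 0 < β → ∀ ε : ℝ, 0 < ε → ∃ P : ℕ, ∀ p q : ℕ, P ≤ p → P ≤ q → p.Prime → q.Prime →
      (roughPart p ⌊β * α ^ p + B * α' ^ p⌋₊).Prime →
      (roughPart q ⌊ρ * β * α ^ q + B' * α' ^ q⌋₊).Prime →
      ((min p q : ℕ) : ℝ) / Real.log ((min p q : ℕ) : ℝ) ^ (1 + ε) ≤ |(q : ℝ) - p| := by
  have hα0 : 0 < α := by linarith
  have hρ0 : 0 < ρ := by linarith
  have hg : ∀ (B : ℝ) (p : ℕ), |(fun p : ℕ => B * α' ^ p) p| ≤ |B| * (1 : ℝ) ^ p := by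
    intro B p
    simp only
    rw [one_pow, abs_mul, abs_pow]
    exact mul_le_mul_of_nonneg_left
      (pow_le_one₀ (abs_nonneg _) (Pool.Agent.H19P.conj_abs hα hm).le) (abs_nonneg _)
  have hg' : ∀ p : ℕ, |(fun p : ℕ => B * α' ^ p) p| ≤ (|B| + |B'|) * (1 : ℝ) ^ p := fun p =>
    (hg B p).trans (by
      have := abs_nonneg B'
      rw [one_pow]
      linarith)
  have hg2' : ∀ p : ℕ, |(fun p : ℕ => B' * α' ^ p) p| ≤ (|B| + |B'|) * (1 : ℝ) ^ p := fun p =>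
    (hg B' p).trans (by
      have := abs_nonneg B
      rw [one_pow]
      linarith)
  have hδ0 : 0 < α - α' := by
    have := (abs_lt.1 (Pool.Agent.H19P.conj_abs hα hm)).2
    linarith
  have hK : ∀ s t : ℕ, 1 ≤ s → 1 ≤ t → (1 : ℝ) ≤ t * (t + s * (α - α')) := by
    intro s t hs ht
    have h1 : (1 : ℝ) ≤ t := by exact_mod_cast ht
    have h2 : 0 ≤ (s : ℝ) * (α - α') := by positivity
    nlinarith
  obtain ⟨s', t', hs1', ht1', hinv⟩ := inv_ratio hα hs hm hs1 ht1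
  have A1 := jclose hα zero_le_one hα hg' hg2' (hK s t hs1 ht1) hρ0
    (fun h a b ha hb => by rw [hρ]; exact dio_ratio hα hs hm hs1 ht1 h a b ha hb)
  have A2 := jclose hα zero_le_one hα hg2' hg' (hK s' t' hs1' ht1') (inv_pos.2 hρ0)
    (fun h a b ha hb => by
      rw [hρ, hinv]
      exact dio_ratio hα hs hm hs1' ht1' h a b ha hb)
  -- the second statement at the amplitude `ρ β`
  have A3 : ∀ᵐ β : ℝ, 0 < ρ * β → ∀ ε : ℝ, 0 < ε → ∃ P : ℕ, ∀ p q : ℕ, P ≤ p → p.Prime → q.Prime →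
      p ≤ q → 1 ≤ ρ⁻¹ * α ^ (q - p) → (p < q → (q : ℝ) - p < p / Real.log p ^ (1 + ε)) →
      (roughPart p ⌊(ρ * β) * α ^ p + B' * α' ^ p⌋₊).Prime →
      (roughPart q ⌊ρ⁻¹ * (ρ * β) * α ^ q + B * α' ^ q⌋₊).Prime → False := by
    have hq : Measure.QuasiMeasurePreserving (fun x : ℝ => ρ * x) := by
      refine ⟨measurable_const_mul ρ, ?_⟩
      have := Real.map_volume_mul_left hρ0.ne'
      rw [this]
      exact Measure.smul_absolutelyContinuous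
    exact hq.ae A2
  filter_upwards [A1, A3] with β h1 h2 hβ ε hε
  obtain ⟨P1, hP1⟩ := h1 hβ ε hε
  obtain ⟨P2, hP2⟩ := h2 (mul_pos hρ0 hβ) ε hε
  refine ⟨P1 + P2 + 3, fun p q hp hq hpp hqp h3 h4 => ?_⟩
  by_contra hc
  rw [not_le] at hc
  rcases le_or_gt p q with h5 | h5
  · rw [min_eq_left h5] at hc
    refine hP1 p q (by omega) hpp hqp h5 ?_ (fun _ => lt_of_le_of_lt (le_abs_self _) hc) h3 h4
    have : 1 ≤ α ^ (q - p) := one_le_pow₀ hα.le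
    nlinarith
  · rw [min_eq_right h5.le] at hc
    have h6 : (p : ℝ) - q < q / Real.log q ^ (1 + ε) := by
      refine lt_of_le_of_lt ?_ hc
      rw [abs_sub_comm]
      exact le_abs_self _
    refine hP2 q p (by omega) hqp hpp h5.le ?_ (fun _ => h6) h4 ?_
    · have h7 : 2 ≤ p - q := by
        rcases hpp.eq_two_or_odd with h8 | h8
        · omega
        · rcases hqp.eq_two_or_odd with h9 | h9
          · omega
          · omega
      have h8 : α ^ 2 ≤ α ^ (p - q) := pow_le_pow_right₀ hα.le h7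
      rw [inv_mul_eq_div, le_div_iff₀ hρ0]
      linarith
    · have e : ρ⁻¹ * (ρ * β) = β := by field_simp
      rw [e]
      exact h3

end Pool.Agent.V60.Gap
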